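import Pool.Agent.Helper84.MT.Fis
import Pool.Agent.Helper36.AM.Rw

/-! VOLZ: derivations as matrices on the monomials; growth of forms along lines when a form dominates its derivative. -/

set_option autoImplicit false

namespace Pool.Agent.Helper4.VZ

open MvPolynomial Matrix Pool.Agent.Helper95.LF Pool.Agent.Helper3.LF Pool.Agent.Helper84.MT
open Pool.Agent.Helper36.AM (cfs pol_cfs)
open Pool.Agent.Helper89.LX

noncomputable section

variable {m D : ℕ}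

theorem dir_C_mul (e : Fin m → ℝ) (c : ℝ) (f : MvPolynomial (Fin m) ℝ) : dir e (C c * f) = C c * dir e f := by
  unfold dir
  rw [Finset.mul_sum]
  refine Finset.sum_congr rfl fun i _ => ?_
  rw [pderiv_C_mul]
  ring

theorem dir_zero (e : Fin m → ℝ) : dir e (0 : MvPolynomial (Fin m) ℝ) = 0 := by
  have := dir_C e (0 : ℝ)
  rwa [map_zero] at this

theorem dir_comm (e f : Fin m → ℝ) (q : MvPolynomial (Fin m) ℝ) : dir e (dir f q) = dir f (dir e q) := by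
  induction q using MvPolynomial.induction_on with
  | C a => rw [dir_C, dir_C, dir_zero, dir_zero]
  | add p q hp hq => rw [dir_add, dir_add, dir_add, dir_add, hp, hq]
  | mul_X p i hp =>
    rw [dir_mul_X, dir_mul_X, dir_add, dir_add, dir_mul_X, dir_mul_X, dir_C_mul, dir_C_mul, hp]
    ring

/-- the derivative in the direction `e` on the vectors of the monomials -/
def Tm (m D : ℕ) (e : Fin m → ℝ) : Matrix (Mon m D) (Mon m D) ℝ := Matrix.of fun μ => cfs D (dir e μ.mon)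

theorem Tm_lin (e : Fin m → ℝ) (l : MvPolynomial (Fin m) ℝ → ℝ) (l1 : ∀ p q, l (p + q) = l p + l q)
    (l2 : ∀ c p, l (C c * p) = c * l p) : Tm m D e *ᵥ (fun ν => l ν.mon) = fun μ => l (dir e μ.mon) := by
  funext μ
  have h := pol_cfs (D := D) (dir e μ.mon) (dir_deg e _ (mon_deg μ))
  have l0 : l 0 = 0 := by
    have := l2 0 0
    rwa [zero_mul, mul_zero] at this
  have h1 : ∀ s : Finset (Mon m D), l (∑ a ∈ s, C (cfs D (dir e μ.mon) a) * a.mon) =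
      ∑ a ∈ s, cfs D (dir e μ.mon) a * l a.mon := by
    classical
    intro s
    induction s using Finset.induction_on with
    | empty => simpa using l0
    | insert a s ha ih => rw [Finset.sum_insert ha, Finset.sum_insert ha, l1, l2, ih]
  calc (Tm m D e *ᵥ (fun ν => l ν.mon)) μ = ∑ a, cfs D (dir e μ.mon) a * l a.mon := rfl
    _ = l (pol (cfs D (dir e μ.mon))) := (h1 Finset.univ).symm
    _ = _ := by rw [h]

/-- the vector of the derivatives of the monomials in a direction -/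
theorem Wq_dir (p e : Fin m → ℝ) (μ : Mon m D) : (Wq m D p *ᵥ e) μ = eval p (dir e μ.mon) := by
  unfold dir
  rw [map_sum]
  show (fun a => Wq m D p μ a) ⬝ᵥ e = _
  unfold dotProduct
  apply Finset.sum_congr rfl
  intro a _
  rw [map_mul, eval_C, mul_comm]
  rfl

theorem Tm_vv (e p : Fin m → ℝ) : Tm m D e *ᵥ vv p = Wq m D p *ᵥ e := by
  have h := Tm_lin (D := D) e (fun q => eval p q) (fun a b => map_add _ a b) (fun c q => by rw [map_mul, eval_C])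
  have e1 : (vv p : Mon m D → ℝ) = fun ν => eval p ν.mon := rfl
  rw [e1, h]
  funext μ
  rw [Wq_dir]

theorem Tm_Wq (e f p : Fin m → ℝ) : Tm m D e *ᵥ (Wq m D p *ᵥ f) = fun μ => eval p (dir e (dir f μ.mon)) := by
  have h := Tm_lin (D := D) e (fun q => eval p (dir f q)) (fun a b => by rw [dir_add, map_add])
    (fun c q => by rw [dir_C_mul, map_mul, eval_C])
  have e1 : (Wq m D p *ᵥ f : Mon m D → ℝ) = fun ν => eval p (dir f ν.mon) := funext fun ν => Wq_dir p f ν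
  rw [e1, h]
  funext μ
  rw [dir_comm]

/-- derivative along a line -/
theorem line_deriv (p e : Fin m → ℝ) (q : MvPolynomial (Fin m) ℝ) (t : ℝ) :
    HasDerivAt (fun t => eval (fun k => p k + t * e k) q) (eval (fun k => p k + t * e k) (dir e q)) t := by
  have h := (lnp p e q).hasDerivAt t
  rw [lnp_deriv, lnp_eval] at h
  refine h.congr_of_eventuallyEq (Filter.Eventually.of_forall fun s => ?_)
  exact (lnp_eval p e q s).symm

/-- growth of a form along a curve `u' = T u` if the form dominates its image under `T` -/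
theorem gron {ι : Type} [Fintype ι] (A : Matrix ι ι ℝ) (hs : A.IsSymm) (hA : ∀ x, 0 ≤ x ⬝ᵥ (A *ᵥ x))
    (T : Matrix ι ι ℝ) (L : ℝ) (hL : 0 < L)
    (hT : ∀ v, (T *ᵥ v) ⬝ᵥ (A *ᵥ (T *ᵥ v)) ≤ L ^ 2 * (v ⬝ᵥ (A *ᵥ v)))
    (u : ℝ → ι → ℝ) (hu : ∀ t i, HasDerivAt (fun t => u t i) ((T *ᵥ u t) i) t) (t : ℝ) :
    u t ⬝ᵥ (A *ᵥ u t) ≤ Real.exp (2 * L * |t|) * (u 0 ⬝ᵥ (A *ᵥ u 0)) := by
  have hsym : ∀ x y : ι → ℝ, x ⬝ᵥ (A *ᵥ y) = y ⬝ᵥ (A *ᵥ x) := by
    intro x y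
    rw [Matrix.dotProduct_mulVec, ← Matrix.mulVec_transpose, hs.eq, dotProduct_comm]
  -- the derivative is bounded
  have hb : ∀ v : ι → ℝ, |v ⬝ᵥ (A *ᵥ (T *ᵥ v))| ≤ L * (v ⬝ᵥ (A *ᵥ v)) := by
    intro v
    have e1 : ∀ s : ℝ, (L • v + s • (T *ᵥ v)) ⬝ᵥ (A *ᵥ (L • v + s • (T *ᵥ v))) =
        L ^ 2 * (v ⬝ᵥ (A *ᵥ v)) + 2 * (s * L) * (v ⬝ᵥ (A *ᵥ (T *ᵥ v))) +
          s ^ 2 * ((T *ᵥ v) ⬝ᵥ (A *ᵥ (T *ᵥ v))) := by
      intro s
      rw [Matrix.mulVec_add, Matrix.mulVec_smul, Matrix.mulVec_smul]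
      simp only [add_dotProduct, dotProduct_add, smul_dotProduct, dotProduct_smul, smul_eq_mul]
      rw [hsym (T *ᵥ v) v]
      ring
    have h1 := hA (L • v + (1 : ℝ) • (T *ᵥ v))
    have h2 := hA (L • v + (-1 : ℝ) • (T *ᵥ v))
    rw [e1] at h1 h2
    have h3 := hT v
    rw [abs_le]
    constructor
    · have h4 : 0 ≤ 2 * L * (L * (v ⬝ᵥ (A *ᵥ v)) + v ⬝ᵥ (A *ᵥ (T *ᵥ v))) := by nlinarith
      have h5 := nonneg_of_mul_nonneg_right h4 (by linarith)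
      linarith
    · have h4 : 0 ≤ 2 * L * (L * (v ⬝ᵥ (A *ᵥ v)) - v ⬝ᵥ (A *ᵥ (T *ᵥ v))) := by nlinarith
      have h5 := nonneg_of_mul_nonneg_right h4 (by linarith)
      linarith
  have hG : ∀ t, HasDerivAt (fun t => u t ⬝ᵥ (A *ᵥ u t)) (2 * (u t ⬝ᵥ (A *ᵥ (T *ᵥ u t)))) t := by
    intro t
    have h1 : ∀ i, HasDerivAt (fun t => (A *ᵥ u t) i) ((A *ᵥ (T *ᵥ u t)) i) t := by
      intro i
      have := HasDerivAt.fun_sum (u := Finset.univ) (fun j (_ : j ∈ Finset.univ) => (hu t j).const_mul (A i j))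
      exact this
    have h2 := HasDerivAt.fun_sum (u := Finset.univ) (fun i (_ : i ∈ Finset.univ) => (hu t i).mul (h1 i))
    have e1 : ∑ i, ((T *ᵥ u t) i * (A *ᵥ u t) i + u t i * (A *ᵥ (T *ᵥ u t)) i) =
        2 * (u t ⬝ᵥ (A *ᵥ (T *ᵥ u t))) := by
      rw [Finset.sum_add_distrib]
      have e2 : ∑ i, (T *ᵥ u t) i * (A *ᵥ u t) i = u t ⬝ᵥ (A *ᵥ (T *ᵥ u t)) := hsym (T *ᵥ u t) (u t)
      have e3 : ∑ i, u t i * (A *ᵥ (T *ᵥ u t)) i = u t ⬝ᵥ (A *ᵥ (T *ᵥ u t)) := rfl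
      rw [e2, e3]
      ring
    rw [e1] at h2
    exact h2
  rcases le_total 0 t with ht | ht
  · have h1 : ∀ t, HasDerivAt (fun t => Real.exp (-(2 * L * t)) * (u t ⬝ᵥ (A *ᵥ u t)))
        (Real.exp (-(2 * L * t)) * -(2 * L * 1) * (u t ⬝ᵥ (A *ᵥ u t)) +
          Real.exp (-(2 * L * t)) * (2 * (u t ⬝ᵥ (A *ᵥ (T *ᵥ u t))))) t := by
      intro t
      exact (((hasDerivAt_id t).const_mul (2 * L)).neg.exp).mul (hG t)
    have h2 : Antitone (fun t => Real.exp (-(2 * L * t)) * (u t ⬝ᵥ (A *ᵥ u t))) := by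
      apply antitone_of_deriv_nonpos (fun t => (h1 t).differentiableAt)
      intro t
      rw [(h1 t).deriv]
      have h3 := (abs_le.1 (hb (u t))).2
      have h4 := Real.exp_pos (-(2 * L * t))
      nlinarith
    have h3 := h2 ht
    simp only [mul_zero, neg_zero, Real.exp_zero, one_mul] at h3
    rw [abs_of_nonneg ht]
    have h4 : Real.exp (2 * L * t) * (Real.exp (-(2 * L * t)) * (u t ⬝ᵥ (A *ᵥ u t))) = u t ⬝ᵥ (A *ᵥ u t) := by
      rw [← mul_assoc, ← Real.exp_add, add_neg_cancel, Real.exp_zero, one_mul]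
    rw [← h4]
    exact mul_le_mul_of_nonneg_left h3 (Real.exp_pos _).le
  · have h1 : ∀ t, HasDerivAt (fun t => Real.exp (2 * L * t) * (u t ⬝ᵥ (A *ᵥ u t)))
        (Real.exp (2 * L * t) * (2 * L * 1) * (u t ⬝ᵥ (A *ᵥ u t)) +
          Real.exp (2 * L * t) * (2 * (u t ⬝ᵥ (A *ᵥ (T *ᵥ u t))))) t := by
      intro t
      exact (((hasDerivAt_id t).const_mul (2 * L)).exp).mul (hG t)
    have h2 : Monotone (fun t => Real.exp (2 * L * t) * (u t ⬝ᵥ (A *ᵥ u t))) := by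
      apply monotone_of_deriv_nonneg (fun t => (h1 t).differentiableAt)
      intro t
      rw [(h1 t).deriv]
      have h3 := (abs_le.1 (hb (u t))).1
      have h4 := Real.exp_pos (2 * L * t)
      nlinarith
    have h3 := h2 ht
    simp only [mul_zero, Real.exp_zero, one_mul] at h3
    rw [abs_of_nonpos ht]
    have h4 : Real.exp (2 * L * -t) * (Real.exp (2 * L * t) * (u t ⬝ᵥ (A *ᵥ u t))) = u t ⬝ᵥ (A *ᵥ u t) := by
      rw [← mul_assoc, ← Real.exp_add, mul_neg, neg_add_cancel, Real.exp_zero, one_mul]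
    rw [← h4]
    exact mul_le_mul_of_nonneg_left h3 (Real.exp_pos _).le

/-- `A` dominates its derivative in the direction `e` -/
def Dmv (A : Matrix (Mon m D) (Mon m D) ℝ) (e : Fin m → ℝ) (L : ℝ) : Prop :=
  ∀ v, (Tm m D e *ᵥ v) ⬝ᵥ (A *ᵥ (Tm m D e *ᵥ v)) ≤ L ^ 2 * (v ⬝ᵥ (A *ᵥ v))

theorem nodp_line (p e : Fin m → ℝ) (r t : ℝ) (j : Fin m → Fin (D + 1)) :
    nodp D (fun k => p k + t * e k) r j = fun k => nodp D p r j k + t * e k := by
  funext k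
  unfold nodp
  ring

theorem vv_line {A : Matrix (Mon m D) (Mon m D) ℝ} (hs : A.IsSymm) (hA : ∀ x, 0 ≤ x ⬝ᵥ (A *ᵥ x)) {e : Fin m → ℝ}
    {L : ℝ} (hL : 0 < L) (h : Dmv A e L) (p : Fin m → ℝ) (t : ℝ) :
    vv (fun k => p k + t * e k) ⬝ᵥ (A *ᵥ vv (fun k => p k + t * e k)) ≤
      Real.exp (2 * L * |t|) * (vv p ⬝ᵥ (A *ᵥ vv p)) := by
  have h1 := gron A hs hA (Tm m D e) L hL h (fun t => vv (fun k => p k + t * e k)) (fun t μ => by
    rw [Tm_vv, Wq_dir]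
    exact line_deriv p e μ.mon t) t
  have e1 : (fun k => p k + 0 * e k) = p := by funext k; ring
  simp only [e1] at h1
  exact h1

theorem Wq_line {A : Matrix (Mon m D) (Mon m D) ℝ} (hs : A.IsSymm) (hA : ∀ x, 0 ≤ x ⬝ᵥ (A *ᵥ x)) {e : Fin m → ℝ}
    {L : ℝ} (hL : 0 < L) (h : Dmv A e L) (p f : Fin m → ℝ) (t : ℝ) :
    (Wq m D (fun k => p k + t * e k) *ᵥ f) ⬝ᵥ (A *ᵥ (Wq m D (fun k => p k + t * e k) *ᵥ f)) ≤
      Real.exp (2 * L * |t|) * ((Wq m D p *ᵥ f) ⬝ᵥ (A *ᵥ (Wq m D p *ᵥ f))) := by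
  have h1 := gron A hs hA (Tm m D e) L hL h (fun t => Wq m D (fun k => p k + t * e k) *ᵥ f) (fun t μ => by
    rw [Tm_Wq]
    have e2 : (fun t => (Wq m D (fun k => p k + t * e k) *ᵥ f) μ) =
        fun t => eval (fun k => p k + t * e k) (dir f μ.mon) := funext fun t => Wq_dir _ _ _
    show HasDerivAt (fun t => (Wq m D (fun k => p k + t * e k) *ᵥ f) μ) _ t
    rw [e2]
    exact line_deriv p e (dir f μ.mon) t) t
  have e1 : (fun k => p k + 0 * e k) = p := by funext k; ring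
  simp only [e1] at h1
  exact h1

/-- the size of the form along the line -/
theorem phi_line_le {A : Matrix (Mon m D) (Mon m D) ℝ} (hs : A.IsSymm) (hA : ∀ x, 0 ≤ x ⬝ᵥ (A *ᵥ x))
    {e : Fin m → ℝ} {L : ℝ} (hL : 0 < L) (h : Dmv A e L) (r : ℝ) (p : Fin m → ℝ) (t : ℝ) :
    phi r A (fun k => p k + t * e k) ≤ Real.exp (2 * L * |t|) * phi r A p := by
  unfold phi
  rw [Finset.mul_sum]
  refine Finset.sum_le_sum fun j _ => ?_
  rw [nodp_line]
  exact vv_line hs hA hL h _ t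

/-- the Gram matrix along the line -/
theorem Jq_line_le {A : Matrix (Mon m D) (Mon m D) ℝ} (hs : A.IsSymm) (hA : ∀ x, 0 ≤ x ⬝ᵥ (A *ᵥ x))
    {e : Fin m → ℝ} {L : ℝ} (hL : 0 < L) (h : Dmv A e L) (r : ℝ) (p f : Fin m → ℝ) (t : ℝ) :
    f ⬝ᵥ (Jq r A (fun k => p k + t * e k) *ᵥ f) ≤ Real.exp (2 * L * |t|) * (f ⬝ᵥ (Jq r A p *ᵥ f)) := by
  rw [Jq_qf, Jq_qf, Finset.mul_sum]
  refine Finset.sum_le_sum fun j _ => ?_
  rw [nodp_line]
  exact Wq_line hs hA hL h _ f t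

theorem GQ_line_le {A : Matrix (Mon m D) (Mon m D) ℝ} (hs : A.IsSymm) (hA : ∀ x, 0 ≤ x ⬝ᵥ (A *ᵥ x))
    {e : Fin m → ℝ} {L : ℝ} (hL : 0 < L) (h : Dmv A e L) (r : ℝ) (p : Fin m → ℝ) (t : ℝ) :
    GQ r A (fun k => p k + t * e k) ≤ Real.exp (2 * L * |t|) ^ m * GQ r A p :=
  GQ_le_of r r A A hs hA hs hA p _ _ (Real.one_le_exp (by positivity)) (fun f => Jq_line_le hs hA hL h r p f t)

/-- the reversed inequality -/
theorem GQ_line_ge {A : Matrix (Mon m D) (Mon m D) ℝ} (hs : A.IsSymm) (hA : ∀ x, 0 ≤ x ⬝ᵥ (A *ᵥ x))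
    {e : Fin m → ℝ} {L : ℝ} (hL : 0 < L) (h : Dmv A e L) (r : ℝ) (p : Fin m → ℝ) (t : ℝ) :
    GQ r A p ≤ Real.exp (2 * L * |t|) ^ m * GQ r A (fun k => p k + t * e k) := by
  have h1 := GQ_line_le hs hA hL h r (fun k => p k + t * e k) (-t)
  have e1 : (fun k => p k + t * e k + -t * e k) = p := by funext k; ring
  rw [e1, abs_neg] at h1
  exact h1

/-! ### the derivative of a form -/

/-- the form of the derivatives of the rows, multiplied by `s` -/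
def drm (A : Matrix (Mon m D) (Mon m D) ℝ) (e : Fin m → ℝ) (s : ℝ) : Matrix (Mon m D) (Mon m D) ℝ :=
  1 + s • ((Tm m D e).transpose * A * Tm m D e)

theorem drm_qf (A : Matrix (Mon m D) (Mon m D) ℝ) (e : Fin m → ℝ) (s : ℝ) (x : Mon m D → ℝ) :
    x ⬝ᵥ (drm A e s *ᵥ x) = x ⬝ᵥ x + s * ((Tm m D e *ᵥ x) ⬝ᵥ (A *ᵥ (Tm m D e *ᵥ x))) := by
  unfold drm
  rw [dv_add, Matrix.one_mulVec, dv_smul, dv_conj]

theorem drm_symm {A : Matrix (Mon m D) (Mon m D) ℝ} (hA : A.IsSymm) (e : Fin m → ℝ) (s : ℝ) :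
    (drm A e s).IsSymm := by
  unfold drm Matrix.IsSymm
  rw [Matrix.transpose_add, Matrix.transpose_one, Matrix.transpose_smul, Matrix.transpose_mul,
    Matrix.transpose_mul, Matrix.transpose_transpose, hA.eq, Matrix.mul_assoc]

theorem drm_ge {A : Matrix (Mon m D) (Mon m D) ℝ} (hA : ∀ x, 0 ≤ x ⬝ᵥ (A *ᵥ x)) (e : Fin m → ℝ) {s : ℝ}
    (hs : 0 ≤ s) (x : Mon m D → ℝ) : x ⬝ᵥ x ≤ x ⬝ᵥ (drm A e s *ᵥ x) := by
  rw [drm_qf]
  have := mul_nonneg hs (hA (Tm m D e *ᵥ x))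
  linarith

theorem drm_phi (A : Matrix (Mon m D) (Mon m D) ℝ) (e : Fin m → ℝ) (s r : ℝ) (p : Fin m → ℝ) :
    phi r (drm A e s) p = phi r (1 : Matrix (Mon m D) (Mon m D) ℝ) p + s * (e ⬝ᵥ (Jq r A p *ᵥ e)) := by
  rw [Jq_qf, Finset.mul_sum]
  unfold phi
  rw [← Finset.sum_add_distrib]
  refine Finset.sum_congr rfl fun j _ => ?_
  rw [drm_qf, Matrix.one_mulVec, Tm_vv]

end

end Pool.Agent.Helper4.VZ
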