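import Pool.Agent.Helper4.VZ.Tm
import Pool.Agent.Helper84.MT.Fun
import Pool.Agent.Helper26.MT.Zf
import Pool.Agent.Helper14.MC.Cnt

/-! VOLZ: an optimal form dominates its derivatives. -/

set_option autoImplicit false

namespace Pool.Agent.Helper4.VZ

open Finset Filter Topology Matrix Pool.Agent.Helper69.RK Pool.Agent.Helper31.EC Pool.Agent.Helper31.EC.Sp
open Pool.Agent.Helper40.EL Pool.Agent.Helper89.LX Pool.Agent.Helper3.LF Pool.Agent.Helper84.MT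
open Pool.Agent.Helper95.LF
open Pool.Agent.Helper59.LF (fadd fadd_leak ladd nul_card)
open Pool.Agent.Helper14.MC (adf_sub)
open Pool.Agent.Helper3.PR (cutm cutm_cpd cut_typ)

noncomputable section

section gen

variable {S : Sp} {ι κ : Type} [Fintype ι] [DecidableEq ι] {Φ : Gau S ι}

/-- variables with boundedly many values can be added to labels -/
theorem few_nul (l : Lab S) (W : ∀ k, (l k).T.Ω → ℕ) (J : ℕ) (hW : ∀ k ω, W k ω ≤ J) {κ : Type} {A : κ → Part S}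
    (hl : l.DMf A) : (ladd l fun k => Setoid.ker (W k)).DMf A := by
  intro i
  have h0 : Nul S (fun k => h (fc (Setoid.ker (W k)) : FL (l k).T) ((l k).v ⊔ (l k).p.map (A i k))) := ?_
  · apply ((hl i).add h0).of_le (Eventually.of_forall fun k => FLab.leak_nonneg _ _)
    exact Eventually.of_forall fun k => fadd_leak (l k) (Setoid.ker (W k)) (A i k)
  have h1 := nul_card l W (fun k => (l k).V ⊓ (l k).T.Z) (fun _ => Finset.range (J + 1)) (fun _ => (J : ℝ) + 1)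
    (S.Sub_const (by positivity)) (Eventually.of_forall fun k => by
      rw [Finset.card_range]
      push_cast
      exact le_rfl) (Eventually.of_forall fun k ω _ => by
      rw [Finset.mem_range]
      have := hW k ω
      omega)
  refine h1.of_le (Eventually.of_forall fun k => h_nonneg _ _) (Eventually.of_forall fun k => ?_)
  have h2 : h (fc (Setoid.ker (W k)) : FL (l k).T) ((l k).v ⊔ (l k).p.map (A i k)) ≤
      h (fc (Setoid.ker (W k)) : FL (l k).T) (fc (l k).V) := h_anti le_sup_left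
  rw [h_fc] at h2
  exact h2

/-- DOMINATION on the label itself: an optimal form dominates every typically bounded form which is a function of the
label and of a variable with boundedly many values -/
theorem opt_self [Finite κ] {A : κ → Part S} {x : ∀ k, FD (S.F k) ι} (hx : Φ.Optf A x)
    (W : ∀ k, (x k).l.T.Ω → ℕ) (J : ℕ) (hW : ∀ k ω, W k ω ≤ J) (G : ∀ k, (x k).l.T.Ω → Matrix ι ι ℝ)
    (hm : ∀ k ω ω', (x k).l.T.μ ω ≠ 0 → (x k).l.T.μ ω' ≠ 0 → (x k).l.V ω ω' → (x k).l.T.Z ω ω' →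
      W k ω = W k ω' → G k ω = G k ω')
    (h1 : ∀ᶠ k in UF, ∀ ω, (x k).l.T.μ ω ≠ 0 → (G k ω).IsSymm ∧ ∀ v, v ⬝ᵥ v ≤ qf (G k ω) v)
    (K : ℕ → ℝ) (hK : S.Sub K)
    (hT : Sp.Typ (S := (lb x).sp) (fun k (ω : (x k).l.T.Ω) => Φ.φ k ((x k).l.p.π ω) (G k ω) ≤ K k))
    (ε : ℝ) (hε : 0 < ε) : Sp.Typ (S := (lb x).sp) (fun k (ω : (x k).l.T.Ω) =>
      ∀ v, qf (G k ω) v ≤ 2 ^ (ε * (S.F k).n) * qf ((x k).g ω) v) := by
  classical
  have hcut := cut_typ (Φ := Φ) (lb x) G h1 K hK hT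
  set y : ∀ k, FD (S.F k) ι := fun k =>
    { l := fadd (x k).l (Setoid.ker (W k))
      g := (x k).g
      g' := fun ω => cutm (Φ.cp k) (G k ω)
      meas := fun ω ω' a b c d =>
        ⟨((x k).meas ω ω' a b c.1 d).1, by rw [hm k ω ω' a b c.1 d c.2]⟩ } with hy
  have hfm := hx.1.fm
  have hyT : Sp.Typ (S := (lb x).sp) (fun k (ω : (x k).l.T.Ω) =>
      Φ.φ k ((x k).l.p.π ω) (cutm (Φ.cp k) (G k ω)) ≤ K k) := by
    refine typ_mono (typ_and hT hcut) ?_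
    refine Eventually.of_forall fun k ω _ h => ?_
    unfold cutm
    rw [if_pos h.2]
    exact h.1
  have hyA : Φ.Adf A y := by
    refine Gau.Adf_iff.2 ⟨few_nul (lb x) W J hW (Gau.Adf.dm Φ hx.1), fun η hη => ?_⟩
    have h3 : Tendsto (fun k => (x k).l.T.pb (fun ω => ¬ Φ.φ k ((x k).l.p.π ω) (cutm (Φ.cp k) (G k ω)) ≤
      2 ^ (η * ((lb x).sp.F k).n))) UF (𝓝 0) := typ_of_sub_le ((sp_Sub (lb x)).mpr hK) hyT η hη
    filter_upwards [hfm η hη, h3.eventually (gt_mem_nhds hη)] with k c d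
    rw [sp_n] at d
    exact ⟨fun ω hω => ⟨(c.1 ω hω).1, cutm_cpd (Φ.one_le_cp k) _⟩, c.2.1, d.le⟩
  have h2 := Φ.opt_nearf hyA (fun z hz => hx.2 z hz) ε hε
  have h3 : Sp.Typ (S := (lb x).sp) (fun k (ω : (x k).l.T.Ω) =>
      ∀ v, qf (cutm (Φ.cp k) (G k ω)) v ≤ 2 ^ (ε * (S.F k).n) * qf ((x k).g ω) v) := h2
  refine typ_mono (typ_and h3 hcut) ?_
  refine Eventually.of_forall fun k ω _ h => ?_
  have h4 := h.1
  unfold cutm at h4
  rw [if_pos h.2] at h4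
  exact h4

end gen

variable {S : Sp} {M D : ℕ} {κ : Type}

/-- `1 + J(e, e)` at the point -/
def je (Q : S.VV M) (x : ∀ k, FD (S.F k) (Mon M D)) (e : ∀ k, (x k).l.T.Ω → Fin M → ℝ) (k : ℕ)
    (ω : (x k).l.T.Ω) : ℝ :=
  1 + e k ω ⬝ᵥ (Jq (S.dl 1 k) ((x k).g ω) (Q.v k ((x k).l.p.π ω)) *ᵥ e k ω)

/-- the exponent of `1 + J(e, e)` -/
def ee (Q : S.VV M) (x : ∀ k, FD (S.F k) (Mon M D)) (e : ∀ k, (x k).l.T.Ω → Fin M → ℝ) (k : ℕ)
    (ω : (x k).l.T.Ω) : ℝ := Real.logb 2 (je Q x e k ω) / (2 * (S.F k).n)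

variable {Q : S.VV M} {x : ∀ k, FD (S.F k) (Mon M D)}

theorem je_one_le {A : κ → Part S} (hx : (gaq Q D).Adf A x) : ∀ᶠ k in UF, ∀ ω, (x k).l.T.μ ω ≠ 0 →
    ∀ e : ∀ k, (x k).l.T.Ω → Fin M → ℝ, 1 ≤ je Q x e k ω := by
  filter_upwards [hx 1 one_pos] with k hk ω hω e
  have h1 := Jq_nonneg (S.dl 1 k) (hk.2.1 ω hω).1.psd.2 (Q.v k ((x k).l.p.π ω)) (e k ω)
  unfold je
  linarith

theorem je_pow (e : ∀ k, (x k).l.T.Ω → Fin M → ℝ) (k : ℕ) (ω : (x k).l.T.Ω) (h : 1 ≤ je Q x e k ω) :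
    (2 : ℝ) ^ (2 * ee Q x e k ω * (S.F k).n) = je Q x e k ω := by
  have hn := (S.F k).pos
  have e1 : 2 * ee Q x e k ω * (S.F k).n = Real.logb 2 (je Q x e k ω) := by
    unfold ee
    field_simp
  rw [e1, Real.rpow_logb (by norm_num) (by norm_num) (by linarith)]

theorem ee_nonneg (e : ∀ k, (x k).l.T.Ω → Fin M → ℝ) (k : ℕ) (ω : (x k).l.T.Ω) (h : 1 ≤ je Q x e k ω) :
    0 ≤ ee Q x e k ω :=
  div_nonneg (Real.logb_nonneg (by norm_num) h) (mul_nonneg (by norm_num) (S.F k).pos.le)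

/-- the exponents are bounded typically -/
theorem je_up {A : κ → Part S} (hx : (gaq Q D).Adf A x) (e : ∀ k, (x k).l.T.Ω → Fin M → ℝ) (Ke : ℕ → ℝ)
    (hKe : S.Sub Ke) (heb : ∀ᶠ k in UF, ∀ ω, (x k).l.T.μ ω ≠ 0 → e k ω ⬝ᵥ e k ω ≤ Ke k) (η : ℝ) (hη : 0 < η) :
    Sp.Typ (S := (lb x).sp) (fun k (ω : (x k).l.T.Ω) =>
      Real.logb 2 (je Q x e k ω) ≤ (2 + η) * (S.F k).n) := by
  obtain ⟨K, hK, hT⟩ := adf_sub hx
  have hnn := nn_one M D
  have hCm := Cm_one M D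
  have hs : S.Sub (fun k => 1 + (M : ℝ) * nn M D * Cm M D ^ 2 * K k * Ke k) :=
    (S.Sub_const zero_le_one).add (((S.Sub_const (by positivity)).mul hK).mul hKe)
  refine typ_mono hT ?_
  filter_upwards [hx 1 one_pos, heb, hs.eventually_le hη, je_one_le hx, hKe.1, hK.1] with k a b c d e1 e2 ω hω h
  have hA := (a.2.1 ω hω).1
  have hδ := S.dl_pos 1 k
  have hδ1 := dl_one_le S k
  have h1 := Jq_gam (S.dl 1 k) ((x k).g ω) hA.pdM (Q.v k ((x k).l.p.π ω)) (e k ω)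
  have h2 := gam_le ((x k).g ω) hA.pdM (S.dl 1 k) hδ (Q.v k ((x k).l.p.π ω))
  have h3 : phi (S.dl 1 k) ((x k).g ω) (Q.v k ((x k).l.p.π ω)) ≤ K k := h
  have h4 := gam_nonneg (S.dl 1 k) hA.pdM.nonneg (Q.v k ((x k).l.p.π ω))
  have h5 := dot_self_nonneg (e k ω)
  have h6 : (S.dl 1 k ^ 2)⁻¹ = 2 ^ (2 * (S.F k).n) := Pool.Agent.Helper59.EV.dl_sq_inv S k
  have h7 : gam (S.dl 1 k) ((x k).g ω) (Q.v k ((x k).l.p.π ω)) ≤
      2 ^ (2 * (S.F k).n) * ((M : ℝ) * nn M D * Cm M D ^ 2 * K k) := by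
    rw [← h6, inv_mul_eq_div, le_div_iff₀ (by positivity), mul_comm]
    refine h2.trans ?_
    exact mul_le_mul_of_nonneg_left h3 (by positivity)
  have h8 : je Q x e k ω ≤ 2 ^ (2 * (S.F k).n) * (1 + (M : ℝ) * nn M D * Cm M D ^ 2 * K k * Ke k) := by
    unfold je
    have h9 : e k ω ⬝ᵥ (Jq (S.dl 1 k) ((x k).g ω) (Q.v k ((x k).l.p.π ω)) *ᵥ e k ω) ≤
        2 ^ (2 * (S.F k).n) * ((M : ℝ) * nn M D * Cm M D ^ 2 * K k) * Ke k := by
      refine h1.trans ?_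
      exact mul_le_mul h7 (b ω hω) h5 (by positivity)
    have h10 : (1 : ℝ) ≤ 2 ^ (2 * (S.F k).n) := Real.one_le_rpow (by norm_num) (by
      have := (S.F k).pos
      linarith)
    rw [mul_add, mul_one]
    linarith
  have h9 := d ω hω e
  have h10 : 1 + (M : ℝ) * nn M D * Cm M D ^ 2 * K k * Ke k ≤ 2 ^ (η * (S.F k).n) := by
    linarith
  rw [Real.logb_le_iff_le_rpow (by norm_num) (by linarith), add_mul, Real.rpow_add (by norm_num)]
  exact h8.trans (mul_le_mul_of_nonneg_left h10 (by positivity))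

/-- AN OPTIMAL FORM DOMINATES ITS DERIVATIVES: for every direction `e` which is known to the label, with the exponent of
`1 + J(e, e)` at the point -/
theorem dom_typ [Finite κ] {A : κ → Part S} (hx : (gaq Q D).Optf A x) (e : ∀ k, (x k).l.T.Ω → Fin M → ℝ)
    (hem : ∀ k ω ω', (x k).l.T.μ ω ≠ 0 → (x k).l.T.μ ω' ≠ 0 → (x k).l.V ω ω' → (x k).l.T.Z ω ω' → e k ω = e k ω')
    (Ke : ℕ → ℝ) (hKe : S.Sub Ke) (heb : ∀ᶠ k in UF, ∀ ω, (x k).l.T.μ ω ≠ 0 → e k ω ⬝ᵥ e k ω ≤ Ke k)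
    (ε : ℝ) (hε : 0 < ε) : Sp.Typ (S := (lb x).sp) (fun k (ω : (x k).l.T.Ω) =>
      Dmv ((x k).g ω) (e k ω) (2 ^ ((ee Q x e k ω + ε) * (S.F k).n))) := by
  classical
  obtain ⟨K0, hK0, hone⟩ := (gaq Q D).one
  set J : ℕ := ⌈3 / ε⌉₊ with hJ
  set j : ∀ k, (x k).l.T.Ω → ℕ := fun k ω => min ⌊Real.logb 2 (je Q x e k ω) / (ε * (S.F k).n)⌋₊ J with hj
  set s : ∀ k, (x k).l.T.Ω → ℝ := fun k ω => 2 ^ (-(((j k ω : ℝ) + 1) * ε * (S.F k).n)) with hs
  have hup := je_up hx.1 e Ke hKe heb 1 one_pos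
  have hone' := je_one_le hx.1
  have h1 := opt_self hx j J (fun k ω => min_le_right _ _) (fun k ω => drm ((x k).g ω) (e k ω) (s k ω))
    (by
      intro k ω ω' a b c d f
      show drm ((x k).g ω) (e k ω) (s k ω) = drm ((x k).g ω') (e k ω') (s k ω')
      have e1 := ((x k).meas ω ω' a b c d).1
      have e2 := hem k ω ω' a b c d
      have e3 : s k ω = s k ω' := by
        show (2 : ℝ) ^ (-(((j k ω : ℝ) + 1) * ε * (S.F k).n)) = 2 ^ (-(((j k ω' : ℝ) + 1) * ε * (S.F k).n))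
        rw [f]
      rw [e1, e2, e3])
    (by
      filter_upwards [hx.1 1 one_pos] with k hk ω hω
      have hA := (hk.2.1 ω hω).1
      exact ⟨drm_symm hA.1 _ _, fun v => drm_ge hA.psd.2 _ (by positivity) v⟩)
    (fun k => K0 k + 1) (hK0.add (S.Sub_const zero_le_one))
    (by
      refine typ_mono hup ?_
      filter_upwards [hone, hone'] with k a b ω hω h
      have hn := (S.F k).pos
      have h2 := b ω hω e
      have h3 : (gaq Q D).φ k ((x k).l.p.π ω) (drm ((x k).g ω) (e k ω) (s k ω)) =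
          (gaq Q D).φ k ((x k).l.p.π ω) 1 +
            s k ω * (e k ω ⬝ᵥ (Jq (S.dl 1 k) ((x k).g ω) (Q.v k ((x k).l.p.π ω)) *ᵥ e k ω)) :=
        drm_phi _ _ _ _ _
      have h4 := a _ ((x k).l.p.supp ω hω)
      have h5 : s k ω * je Q x e k ω ≤ 1 := by
        have h6 : Real.logb 2 (je Q x e k ω) / (ε * (S.F k).n) ≤ 3 / ε := by
          rw [div_le_div_iff₀ (by positivity) hε]
          nlinarith
        have h7 : ⌊Real.logb 2 (je Q x e k ω) / (ε * (S.F k).n)⌋₊ ≤ J :=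
          Nat.floor_le_of_le (h6.trans (Nat.le_ceil _))
        have h8 : j k ω = ⌊Real.logb 2 (je Q x e k ω) / (ε * (S.F k).n)⌋₊ := min_eq_left h7
        have h9 := Nat.lt_floor_add_one (Real.logb 2 (je Q x e k ω) / (ε * (S.F k).n))
        rw [← h8, div_lt_iff₀ (by positivity)] at h9
        have h10 : je Q x e k ω ≤ 2 ^ (((j k ω : ℝ) + 1) * ε * (S.F k).n) := by
          rw [← Real.logb_le_iff_le_rpow (by norm_num) (by linarith)]
          linarith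
        have h11 : s k ω = (2 ^ (((j k ω : ℝ) + 1) * ε * (S.F k).n))⁻¹ := Real.rpow_neg (by norm_num) _
        rw [h11, inv_mul_eq_div, div_le_one (by positivity)]
        exact h10
      have h6 : s k ω * (e k ω ⬝ᵥ (Jq (S.dl 1 k) ((x k).g ω) (Q.v k ((x k).l.p.π ω)) *ᵥ e k ω)) ≤
          s k ω * je Q x e k ω := by
        apply mul_le_mul_of_nonneg_left _ (by positivity)
        unfold je
        linarith
      rw [h3]
      linarith) ε hε
  refine typ_mono h1 ?_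
  filter_upwards [hone', hx.1 1 one_pos] with k a b ω hω h v
  have hn := (S.F k).pos
  have h2 := a ω hω e
  have h3 := h v
  have h4 : qf (drm ((x k).g ω) (e k ω) (s k ω)) v =
      v ⬝ᵥ v + s k ω * ((Tm M D (e k ω) *ᵥ v) ⬝ᵥ ((x k).g ω *ᵥ (Tm M D (e k ω) *ᵥ v))) := drm_qf _ _ _ _
  rw [h4] at h3
  have h5 := dot_self_nonneg v
  have hs0 : 0 < s k ω := by positivity
  have h6 : s k ω * ((Tm M D (e k ω) *ᵥ v) ⬝ᵥ ((x k).g ω *ᵥ (Tm M D (e k ω) *ᵥ v))) ≤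
      2 ^ (ε * (S.F k).n) * qf ((x k).g ω) v := by linarith
  have h7 : (j k ω : ℝ) * (ε * (S.F k).n) ≤ Real.logb 2 (je Q x e k ω) := by
    have h8 : (0 : ℝ) ≤ Real.logb 2 (je Q x e k ω) / (ε * (S.F k).n) :=
      div_nonneg (Real.logb_nonneg (by norm_num) h2) (by positivity)
    have h9 := Nat.floor_le h8
    have h10 : (j k ω : ℝ) ≤ ⌊Real.logb 2 (je Q x e k ω) / (ε * (S.F k).n)⌋₊ := by
      exact_mod_cast min_le_left _ _
    have h11 := h10.trans h9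
    rwa [le_div_iff₀ (by positivity)] at h11
  have h8 : (s k ω)⁻¹ * 2 ^ (ε * (S.F k).n) ≤ (2 ^ ((ee Q x e k ω + ε) * (S.F k).n)) ^ 2 := by
    have e1 : (s k ω)⁻¹ = 2 ^ (((j k ω : ℝ) + 1) * ε * (S.F k).n) := by
      show ((2 : ℝ) ^ (-(((j k ω : ℝ) + 1) * ε * (S.F k).n)))⁻¹ = _
      rw [Real.rpow_neg (by norm_num), inv_inv]
    rw [e1, ← Real.rpow_add (by norm_num), ← Real.rpow_natCast, ← Real.rpow_mul (by norm_num)]
    apply Real.rpow_le_rpow_of_exponent_le (by norm_num)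
    have e2 : 2 * ee Q x e k ω * (S.F k).n = Real.logb 2 (je Q x e k ω) := by
      unfold ee
      field_simp
    push_cast
    nlinarith
  have h9 : (Tm M D (e k ω) *ᵥ v) ⬝ᵥ ((x k).g ω *ᵥ (Tm M D (e k ω) *ᵥ v)) ≤
      (s k ω)⁻¹ * (2 ^ (ε * (S.F k).n) * qf ((x k).g ω) v) := by
    rw [inv_mul_eq_div, le_div_iff₀ hs0, mul_comm]
    exact h6
  refine h9.trans ?_
  rw [← mul_assoc]
  apply mul_le_mul_of_nonneg_right h8
  have h10 := (b.2.1 ω hω).1.psd.2 v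
  exact h10

end

end Pool.Agent.Helper4.VZ
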