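import Pool.Agent.Helper4.VZ.Vz
import Pool.Agent.Helper4.VZ.Dom

/-! VOLZ: for an optimal form, `h(P_1, z_b | κ) + 1 - E max(η_z, b) ≤ vol`, where `η_z` is the exponent of `1 + J_zz`
at the point. -/

set_option autoImplicit false

namespace Pool.Agent.Helper4.VZ

open Finset Filter Topology Matrix Pool.Agent.Helper69.RK Pool.Agent.Helper31.EC Pool.Agent.Helper31.EC.Sp
open Pool.Agent.Helper40.EL Pool.Agent.Helper89.LX Pool.Agent.Helper3.LF Pool.Agent.Helper84.MT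
open Pool.Agent.Helper95.LF
open Pool.Agent.Helper42.NS (osp u1 u1_dg u1_h osp_dl)
open Pool.Agent.Helper14.MC
open Pool.Agent.Helper36.AM (cel2)
open Pool.Agent.Helper59.LF (nul_few)

noncomputable section

variable {S : Sp} {M D : ℕ} {κ : Type}

/-- rates over the label -/
theorem rt_osp (l : Lab S) (A : ∀ k, Setoid (l k).T.Ω) (k : ℕ) :
    (osp l).rt A (osp l).tr k = (l k).T.e (A k) ((l k).V ⊓ (l k).T.Z) / (S.F k).n := by
  have h1 : (osp l).rt A (osp l).tr k = l.sp.rt A l.V k / 1 := chg_rt_tr l.V 1 one_pos A k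
  rw [h1, div_one]
  have h2 : l.sp.rt A l.V k = (l k).T.e (A k) ((l k).V ⊓ (l k).T.Z) / (l k).T.n := rfl
  rw [h2, (l k).hn]

theorem h_map_v (l : Lab S) (W : ∀ k, Setoid (S.F k).Ω) (k : ℕ) :
    h ((l k).p.map (fc (W k))) (l k).v = (l k).T.e (Setoid.comap (l k).p.π (W k)) ((l k).V ⊓ (l k).T.Z) := by
  have h1 : (l k).p.map (fc (W k)) = fc (Setoid.comap (l k).p.π (W k)) := rfl
  rw [h1]
  exact h_fc _ _

/-- the exponent of `1 + J_zz` at the point, as a function on the space of the label -/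
def zx (Q : S.VV M) (x : ∀ k, FD (S.F k) (Mon M D)) (z : Fin M) (k : ℕ) (ω : (x k).l.T.Ω) : ℝ :=
  Real.logb 2 (1 + Jq (S.dl 1 k) ((x k).g ω) (Q.v k ((x k).l.p.π ω)) z z) / (2 * (S.F k).n)

theorem zx_ee (Q : S.VV M) (x : ∀ k, FD (S.F k) (Mon M D)) (z : Fin M) (k : ℕ) (ω : (x k).l.T.Ω) :
    ee Q x (fun _ _ => sgl z) k ω = zx Q x z k ω := by
  unfold ee je zx
  rw [sgl_Jq]

variable {Q : S.VV M} {x : ∀ k, FD (S.F k) (Mon M D)}

/-- the exponent is bounded -/
theorem zx_bd {A : κ → Part S} (hx : (gaq Q D).Adf A x) (z : Fin M) : ∃ C : ℝ, 0 ≤ C ∧ ∀ᶠ k in UF,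
    ∀ ω, (x k).l.T.μ ω ≠ 0 → 0 ≤ zx Q x z k ω ∧ zx Q x z k ω ≤ C := by
  have hnn := nn_one M D
  have hCm := Cm_one M D
  obtain ⟨K1, hK1, hb⟩ := Q.bd
  have hs : S.Sub (fun k => 1 + (M : ℝ) * nn M D * Cm M D ^ 2 *
      (nn M D * Fintype.card (Mon M D) * (K1 k + 1) ^ (2 * D))) :=
    (S.Sub_const zero_le_one).add ((S.Sub_const (by positivity)).mul
      ((S.Sub_const (by positivity)).mul (Sub_pow' (hK1.add (S.Sub_const zero_le_one)) _)))
  refine ⟨2 + ((gaq Q D).C + 1) + 1, by have := (gaq Q D).C0; linarith, ?_⟩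
  filter_upwards [hx 1 one_pos, hs.eventually_le one_pos, hb, hK1.1, je_one_le hx] with k a c b0 b1 d ω hω
  have hn := (S.F k).pos
  have hA := (a.2.1 ω hω).1
  have hδ := S.dl_pos 1 k
  have hd := d ω hω (fun _ _ => sgl z)
  have hje : je Q x (fun _ _ => sgl z) k ω = 1 + Jq (S.dl 1 k) ((x k).g ω) (Q.v k ((x k).l.p.π ω)) z z := by
    unfold je
    rw [sgl_Jq]
  have h1 := Jq_gam (S.dl 1 k) ((x k).g ω) hA.pdM (Q.v k ((x k).l.p.π ω)) (sgl z)
  have h2 := gam_le ((x k).g ω) hA.pdM (S.dl 1 k) hδ (Q.v k ((x k).l.p.π ω))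
  have h4 := gam_nonneg (S.dl 1 k) hA.pdM.nonneg (Q.v k ((x k).l.p.π ω))
  have h6 : (S.dl 1 k ^ 2)⁻¹ = 2 ^ (2 * (S.F k).n) := Pool.Agent.Helper59.EV.dl_sq_inv S k
  have hcp : (gaq Q D).cp k = 2 ^ (((gaq Q D).C + 1) * (S.F k).n) := rfl
  have hcp0 : 1 ≤ (gaq Q D).cp k := (gaq Q D).one_le_cp k
  have h3 := phi_le ((x k).g ω) ((gaq Q D).cp k) hA.2.2 (by linarith) (S.dl 1 k) (K1 k + 1)
    (S.dl_pos 1 k).le (by linarith) (Q.v k ((x k).l.p.π ω))
    (fun i => add_le_add (b0 _ ((x k).l.p.supp ω hω) i) (dl_one_le S k))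
  set W : ℝ := nn M D * Fintype.card (Mon M D) * (K1 k + 1) ^ (2 * D) with hW
  have hW0 : 0 ≤ W := by positivity
  have h7 : gam (S.dl 1 k) ((x k).g ω) (Q.v k ((x k).l.p.π ω)) ≤
      2 ^ (2 * (S.F k).n) * ((M : ℝ) * nn M D * Cm M D ^ 2 * (W * (gaq Q D).cp k)) := by
    rw [← h6, inv_mul_eq_div, le_div_iff₀ (by positivity), mul_comm]
    refine h2.trans ?_
    exact mul_le_mul_of_nonneg_left h3 (by positivity)
  have hdot : sgl z ⬝ᵥ sgl z = 1 := by
    unfold sgl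
    rw [single_one_dotProduct, Pi.single_eq_same]
  rw [hdot, mul_one, sgl_Jq] at h1
  rw [hje] at hd
  have h8 : 1 + Jq (S.dl 1 k) ((x k).g ω) (Q.v k ((x k).l.p.π ω)) z z ≤
      2 ^ (2 * (S.F k).n) * (gaq Q D).cp k * (1 + (M : ℝ) * nn M D * Cm M D ^ 2 * W) := by
    have h10 : (1 : ℝ) ≤ 2 ^ (2 * (S.F k).n) := Real.one_le_rpow (by norm_num) (by linarith)
    have h11 : (1 : ℝ) ≤ 2 ^ (2 * (S.F k).n) * (gaq Q D).cp k := one_le_mul_of_one_le_of_one_le h10 hcp0
    rw [mul_add, mul_one]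
    have h12 := h1.trans h7
    have h13 : 2 ^ (2 * (S.F k).n) * ((M : ℝ) * nn M D * Cm M D ^ 2 * (W * (gaq Q D).cp k)) =
      2 ^ (2 * (S.F k).n) * (gaq Q D).cp k * ((M : ℝ) * nn M D * Cm M D ^ 2 * W) := by ring
    linarith
  have h9 : 1 + (M : ℝ) * nn M D * Cm M D ^ 2 * W ≤ 2 ^ (1 * (S.F k).n) := by linarith
  have h10 : 1 + Jq (S.dl 1 k) ((x k).g ω) (Q.v k ((x k).l.p.π ω)) z z ≤
      2 ^ ((2 + ((gaq Q D).C + 1) + 1) * (S.F k).n) := by
    refine h8.trans ?_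
    rw [add_mul, add_mul, Real.rpow_add (by norm_num), Real.rpow_add (by norm_num), ← hcp]
    exact mul_le_mul_of_nonneg_left h9 (by positivity)
  constructor
  · exact div_nonneg (Real.logb_nonneg (by norm_num) hd) (by positivity)
  · unfold zx
    rw [div_le_iff₀ (by positivity)]
    rw [← Real.logb_le_iff_le_rpow (by norm_num) (by linarith)] at h10
    have := (gaq Q D).C0
    nlinarith

theorem zx_UB {A : κ → Part S} (hx : (gaq Q D).Adf A x) (z : Fin M) (b : ℝ) (hb : 0 ≤ b) :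
    UB (fun k => ∑ ω, (x k).l.T.μ ω * max (zx Q x z k ω) b) := by
  obtain ⟨C, hC, h⟩ := zx_bd hx z
  apply UB_of_nonneg_le (C := max C b)
  · exact Eventually.of_forall fun k => Finset.sum_nonneg fun ω _ =>
      mul_nonneg ((x k).l.T.nn ω) (le_max_of_le_right hb)
  · filter_upwards [h] with k hk
    exact sum_mul_le _ _ fun ω hω => max_le_max (hk ω hω).2 le_rfl

/-- VOLZ for the cells `(P_1, z_b)` -/
theorem volz_cz [Finite κ] {A : κ → Part S} (hD : 1 ≤ D) (hx : (gaq Q D).Optf A x) (z : Fin M) (b : ℝ) (hb : 0 ≤ b)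
    (hb1 : b ≤ 1) : ul ((osp (lb x)).rt (fun k => Setoid.ker (cz (oQ (lb x) Q) z b k)) (osp (lb x)).tr) + 1 ≤
      vol Q D x + ul (fun k => ∑ ω, (x k).l.T.μ ω * max (zx Q x z k ω) b) := by
  set l : Lab S := lb x with hl
  obtain ⟨K, hK, hT⟩ := adf_sub hx.1
  obtain ⟨Cz, hCz, hzb⟩ := zx_bd hx.1 z
  have hUz := zx_UB hx.1 z b hb
  apply le_of_forall_pos_le_add
  intro ε hε
  have hTsub : ∀ {L : ℕ → ℝ}, S.Sub L → (osp l).Sub L := fun hL => chg_sub l.V 1 one_pos ((sp_Sub l).mpr hL)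
  have hC0 : 0 ≤ (gaq Q D).C + 1 := by linarith [(gaq Q D).C0]
  have hA : ∀ᶠ k in UF, ∀ ω, ((osp l).F k).μ ω ≠ 0 →
      Cpd (2 ^ (((gaq Q D).C + 1) * ((osp l).F k).n)) ((fun k (ω : (x k).l.T.Ω) => (x k).g ω) k ω) := by
    filter_upwards [hx.1 1 one_pos] with k hk ω hω
    rw [osp_n]
    exact (hk.2.1 ω hω).1
  have hZ : ∀ᶠ k in UF, ∀ ω ω', ((osp l).F k).μ ω ≠ 0 → ((osp l).F k).μ ω' ≠ 0 → ((osp l).F k).Z ω ω' →
      (fun k (ω : (x k).l.T.Ω) => (x k).g ω) k ω = (fun k (ω : (x k).l.T.Ω) => (x k).g ω) k ω' := by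
    refine Eventually.of_forall fun k ω ω' a a' g => ?_
    exact ((x k).meas ω ω' a a' g.1 g.2).1
  have hdm := dom_typ hx (fun _ _ => sgl z) (fun k ω ω' _ _ _ _ => rfl) (fun _ => 1) (S.Sub_const zero_le_one)
    (Eventually.of_forall fun k ω _ => by
      unfold sgl
      rw [single_one_dotProduct, Pi.single_eq_same]) ε hε
  have hcnt := CNT_vz (S := osp l) hD (oQ l Q) z (fun k (ω : (x k).l.T.Ω) => (x k).g ω) ((gaq Q D).C + 1) hC0 hA hZ
    (fun k (ω : (x k).l.T.Ω) => (gaq Q D).φ k ((x k).l.p.π ω) ((x k).g ω) ≤ K k ∧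
      Dmv ((x k).g ω) (sgl z) (2 ^ ((ee Q x (fun _ _ => sgl z) k ω + ε) * (S.F k).n)))
    (typ_and hT hdm) K (hTsub hK) (by
      refine Eventually.of_forall fun k ω _ h2 => ?_
      rw [osp_dl]
      exact h2.1)
    (fun k (ω : (x k).l.T.Ω) => zx Q x z k ω + ε) (Cz + ε) (by
      filter_upwards [hzb] with k hk ω hω
      have := hk ω hω
      constructor <;> linarith) (by
      refine Eventually.of_forall fun k ω _ h2 => ?_
      rw [osp_n, ← zx_ee]
      exact h2.2) b hb hb1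
  have e1 := gexq_lb Q x
  have e2 : vol Q D x = M - ul (fun k => ∑ ω, ((osp (lb x)).F k).μ ω *
      gexq (oQ (lb x) Q) (fun k (ω : (x k).l.T.Ω) => (x k).g ω) k ω) := by
    rw [e1]
    rfl
  have e3 : ul (fun k => ∑ ω, ((osp l).F k).μ ω * max (zx Q x z k ω + ε) b) ≤
      ul (fun k => ∑ ω, (x k).l.T.μ ω * max (zx Q x z k ω) b) + ε := by
    have h1 : ul (fun k => (∑ ω, (x k).l.T.μ ω * max (zx Q x z k ω) b) + ε) =
        ul (fun k => ∑ ω, (x k).l.T.μ ω * max (zx Q x z k ω) b) + ε := by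
      rw [ul_add hUz (UB_const ε)]
      congr 1
      exact ul_eq tendsto_const_nhds
    rw [← h1]
    apply ul_mono
    · apply UB_of_nonneg_le (C := max (Cz + ε) b)
      · exact Eventually.of_forall fun k => Finset.sum_nonneg fun ω _ =>
          mul_nonneg ((x k).l.T.nn ω) (le_max_of_le_right hb)
      · filter_upwards [hzb] with k hk
        exact sum_mul_le (F := (x k).l.T) _ _ fun ω hω => max_le_max (by linarith [(hk ω hω).2]) le_rfl
    · exact hUz.add (UB_const ε)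
    · refine Eventually.of_forall fun k => ?_
      have h2 : ∑ ω, (x k).l.T.μ ω = 1 := (x k).l.T.ms
      have h3 : (∑ ω, (x k).l.T.μ ω * max (zx Q x z k ω) b) + ε =
          ∑ ω, (x k).l.T.μ ω * (max (zx Q x z k ω) b + ε) := by
        simp only [mul_add]
        rw [Finset.sum_add_distrib, ← Finset.sum_mul, h2, one_mul]
      show ∑ ω, (x k).l.T.μ ω * max (zx Q x z k ω + ε) b ≤ _
      rw [h3]
      refine Finset.sum_le_sum fun ω _ => mul_le_mul_of_nonneg_left ?_ ((x k).l.T.nn ω)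
      apply max_le
      · have := le_max_left (zx Q x z k ω) b
        linarith
      · have := le_max_right (zx Q x z k ω) b
        linarith
  linarith

/-! ### other forms of the statement -/

/-- the point coordinates of level one over the label from the cells -/
theorem cz_UB (l : Lab S) (Q : S.VV M) (z : Fin M) (b : ℝ) (hb1 : b ≤ 1) :
    UB ((osp l).rt (fun k => Setoid.ker (cz (oQ l Q) z b k)) (osp l).tr) := by
  have h := CNT_gen (fun k => cz (oQ l Q) z b k) (osp l).tr (fun _ _ => False → True) (by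
    have h1 : (fun k => mass (res ((osp l).F k).μ (fun ω => ¬ (False → True)))) = fun _ => 0 := by
      funext k
      unfold mass
      apply Finset.sum_eq_zero
      intro ω _
      exact res_of_not _ _ _ (by simp)
    show Tendsto (fun k => mass (res ((osp l).F k).μ (fun ω => ¬ (False → True)))) UF (𝓝 0)
    rw [h1]
    exact tendsto_const_nhds) (fun _ _ => 2 * M) (2 * M) (Eventually.of_forall fun k ω _ => by
      rw [abs_of_nonneg (by positivity)]) (fun _ _ => 0) 0 (Eventually.of_forall fun k ω _ => le_rfl)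
    (fun _ => 1) ((osp l).Sub_const zero_le_one) (by
      filter_upwards [cz_card (oQ l Q) z b hb1] with k hk ω _ _ T hT
      rw [one_mul]
      apply hk T
      intro a ha
      obtain ⟨ω', h1, _, _, _, _, h2⟩ := hT a ha
      exact ⟨ω', h1, h2⟩) (2 * M) (cz_card (oQ l Q) z b hb1)
  exact h.1

/-- VOLZ with the digits of the other coordinates -/
theorem volz_P [Finite κ] {A : κ → Part S} (hD : 1 ≤ D) (hx : (gaq Q D).Optf A x) (z : Fin M) {M' : ℕ}
    (P : S.VV M') (f : Fin M' → Fin M) (hf : ∀ j, f j ≠ z) (hP : ∀ k ω j, P.v k ω j = Q.v k ω (f j)) :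
    H (up1 (lb x) (P.dg 1)) + 1 ≤ vol Q D x + ul (fun k => ∑ ω, (x k).l.T.μ ω * zx Q x z k ω) := by
  have h1 := volz_cz hD hx z 0 le_rfl zero_le_one
  set l : Lab S := lb x with hl
  have h2 : H (up1 l (P.dg 1)) ≤ ul ((osp l).rt (fun k => Setoid.ker (cz (oQ l Q) z 0 k)) (osp l).tr) := by
    rw [← H_u1, ← oQ_dg]
    have h3 : H ((oQ l P).dg 1) = ul ((osp l).rt (fun k => Setoid.ker ((oQ l P).cellv 1 k)) (osp l).tr) :=
      Sp.H_io ((oQ l P).bdd 1)
    rw [h3]
    apply ul_mono (Sp.UB_rt ((oQ l P).bdd 1).toInf _) (cz_UB l Q z 0 zero_le_one)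
    refine Eventually.of_forall fun k => ?_
    rw [rt_osp, rt_osp]
    apply div_le_div_of_nonneg_right _ (S.F k).pos.le
    apply FSp.e_mono
    intro ω ω' _ _ h4 _
    have h5 : cz (oQ l Q) z 0 k ω = cz (oQ l Q) z 0 k ω' := h4
    show (oQ l P).cellv 1 k ω = (oQ l P).cellv 1 k ω'
    funext j
    have h6 := congrFun h5 (f j)
    unfold cz at h6
    rw [if_neg (hf j), oQ_v, oQ_v, ← hP, ← hP] at h6
    exact h6
  have h3 : ul (fun k => ∑ ω, (x k).l.T.μ ω * max (zx Q x z k ω) 0) =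
      ul (fun k => ∑ ω, (x k).l.T.μ ω * zx Q x z k ω) := by
    obtain ⟨C, hC, hz⟩ := zx_bd hx.1 z
    apply ul_congr
    filter_upwards [hz] with k hk
    refine Finset.sum_congr rfl fun ω _ => ?_
    by_cases h0 : (x k).l.T.μ ω = 0
    · rw [h0, zero_mul, zero_mul]
    · rw [max_eq_left (hk ω h0).1]
  rw [h3] at h1
  linarith

/-- the cells of `cel2` and the cells `(P_1, z_b)` -/
theorem cel_le (l : Lab S) (Q : S.VV M) (z : Fin M) (b : ℝ) (hb1 : b ≤ 1) (k : ℕ) (C : Setoid (l k).T.Ω) :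
    (l k).T.e (Setoid.ker (cz (oQ l Q) z b k)) C ≤
      (l k).T.e (Setoid.comap (l k).p.π (Setoid.ker (Q.cellv b k) ⊓
        Setoid.ker (fun ω (j : {j : Fin M // j ≠ z}) => Q.cellv 1 k ω j.1))) C ∧
    (l k).T.e (Setoid.comap (l k).p.π (Setoid.ker (Q.cellv b k) ⊓
        Setoid.ker (fun ω (j : {j : Fin M // j ≠ z}) => Q.cellv 1 k ω j.1))) C ≤
      (l k).T.e (Setoid.ker (cz (oQ l Q) z b k)) C + M := by
  have hcz : ∀ ω i, cz (oQ l Q) z b k ω i =
      ⌊Q.v k ((l k).p.π ω) i / (if i = z then S.dl b k else S.dl 1 k)⌋ := by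
    intro ω i
    unfold cz
    rw [oQ_v, osp_dl, osp_dl]
  constructor
  · apply FSp.e_mono
    intro ω ω' _ _ h1 _
    have h2 : Q.cellv b k ((l k).p.π ω) = Q.cellv b k ((l k).p.π ω') := h1.1
    have h3 : (fun (j : {j : Fin M // j ≠ z}) => Q.cellv 1 k ((l k).p.π ω) j.1) =
      fun (j : {j : Fin M // j ≠ z}) => Q.cellv 1 k ((l k).p.π ω') j.1 := h1.2
    show cz (oQ l Q) z b k ω = cz (oQ l Q) z b k ω'
    funext i
    rw [hcz, hcz]
    by_cases hi : i = z
    · rw [if_pos hi]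
      exact congrFun h2 i
    · rw [if_neg hi]
      exact congrFun h3 ⟨i, hi⟩
  · refine ((l k).T.e_triangle _ (Setoid.ker (cz (oQ l Q) z b k)) C).trans ?_
    have h1 : (l k).T.e (Setoid.ker (fun ω => Q.cellv b k ((l k).p.π ω))) (Setoid.ker (cz (oQ l Q) z b k) ⊓ C) ≤
        M * Real.logb 2 (1 + 1) := by
      apply FSp.e_int_le _ _ _ _ zero_le_one
      intro ω ω' _ _ h2 i
      have h3 : cz (oQ l Q) z b k ω = cz (oQ l Q) z b k ω' := h2.1
      have h4 := congrFun h3 i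
      rw [hcz, hcz] at h4
      have hδ := S.dl_pos 1 k
      have hδb := S.dl_pos b k
      have hle : S.dl 1 k ≤ S.dl b k := S.dl_anti hb1 k
      show |((⌊Q.v k ((l k).p.π ω) i / S.dl b k⌋ : ℤ) : ℝ) - (⌊Q.v k ((l k).p.π ω') i / S.dl b k⌋ : ℤ)| ≤ 1
      by_cases hi : i = z
      · rw [if_pos hi] at h4
        rw [h4, sub_self, abs_zero]
        exact zero_le_one
      · rw [if_neg hi] at h4
        set a := Q.v k ((l k).p.π ω) i
        set a' := Q.v k ((l k).p.π ω') i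
        have f1 := Int.floor_le (a / S.dl 1 k)
        have f2 := Int.lt_floor_add_one (a / S.dl 1 k)
        have f3 := Int.floor_le (a' / S.dl 1 k)
        have f4 := Int.lt_floor_add_one (a' / S.dl 1 k)
        rw [← h4] at f3 f4
        rw [le_div_iff₀ hδ] at f1 f3
        rw [div_lt_iff₀ hδ] at f2 f4
        have f5 : |a / S.dl b k - a' / S.dl b k| < 1 := by
          rw [← sub_div, abs_div, abs_of_pos hδb, div_lt_one hδb, abs_lt]
          constructor <;> nlinarith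
        rw [abs_lt] at f5
        have g1 := Int.floor_le (a / S.dl b k)
        have g2 := Int.lt_floor_add_one (a / S.dl b k)
        have g3 := Int.floor_le (a' / S.dl b k)
        have g4 := Int.lt_floor_add_one (a' / S.dl b k)
        have g5 : ((⌊a / S.dl b k⌋ - ⌊a' / S.dl b k⌋ : ℤ) : ℝ) < 2 := by push_cast; linarith
        have g6 : (-2 : ℝ) < ((⌊a / S.dl b k⌋ - ⌊a' / S.dl b k⌋ : ℤ) : ℝ) := by push_cast; linarith
        have g7 : ⌊a / S.dl b k⌋ - ⌊a' / S.dl b k⌋ < 2 := by exact_mod_cast g5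
        have g8 : -2 < ⌊a / S.dl b k⌋ - ⌊a' / S.dl b k⌋ := by exact_mod_cast g6
        have g9 : |⌊a / S.dl b k⌋ - ⌊a' / S.dl b k⌋| ≤ 1 := by
          rw [abs_le]
          constructor <;> omega
        have g10 : |((⌊a / S.dl b k⌋ - ⌊a' / S.dl b k⌋ : ℤ) : ℝ)| ≤ ((1 : ℤ) : ℝ) := by
          rw [← Int.cast_abs]
          exact_mod_cast g9
        rw [Int.cast_sub, Int.cast_one] at g10
        exact g10
    have h2 : (l k).T.e (Setoid.comap (l k).p.π (Setoid.ker (Q.cellv b k) ⊓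
        Setoid.ker (fun ω (j : {j : Fin M // j ≠ z}) => Q.cellv 1 k ω j.1)))
          (Setoid.ker (cz (oQ l Q) z b k) ⊓ C) ≤
        (l k).T.e (Setoid.ker (fun ω => Q.cellv b k ((l k).p.π ω))) (Setoid.ker (cz (oQ l Q) z b k) ⊓ C) := by
      apply FSp.e_mono
      intro ω ω' _ _ h3 h4
      refine ⟨h3, ?_⟩
      show (fun (j : {j : Fin M // j ≠ z}) => Q.cellv 1 k ((l k).p.π ω) j.1) =
        fun (j : {j : Fin M // j ≠ z}) => Q.cellv 1 k ((l k).p.π ω') j.1
      funext j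
      have h5 : cz (oQ l Q) z b k ω = cz (oQ l Q) z b k ω' := h4.1
      have h6 := congrFun h5 j.1
      rw [hcz, hcz, if_neg j.2] at h6
      exact h6
    have h3 : Real.logb 2 ((1 : ℝ) + 1) = 1 := by
      have : (1 : ℝ) + 1 = 2 := by norm_num
      rw [this, Real.logb_self_eq_one (by norm_num)]
    rw [h3, mul_one] at h1
    linarith

/-- the partition of `cel2` -/
def celW (Q : S.VV M) (z : Fin M) (b : ℝ) (k : ℕ) : Setoid (S.F k).Ω :=
  Setoid.ker (Q.cellv b k) ⊓ Setoid.ker (fun ω (j : {j : Fin M // j ≠ z}) => Q.cellv 1 k ω j.1)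

theorem cel2_eq (Q : S.VV M) (z : Fin M) (b : ℝ) (k : ℕ) : cel2 Q z 1 b k = fc (celW Q z b k) := rfl

theorem cel2_h (l : Lab S) (Q : S.VV M) (z : Fin M) (b : ℝ) (k : ℕ) : h ((l k).p.map (cel2 Q z 1 b k)) (l k).v =
    (l k).T.e (Setoid.comap (l k).p.π (celW Q z b k)) ((l k).V ⊓ (l k).T.Z) := by
  rw [cel2_eq]
  exact h_map_v l (celW Q z b) k

/-- VOLZ for the cells of `cel2` -/
theorem volz [Finite κ] {A : κ → Part S} (hD : 1 ≤ D) (hx : (gaq Q D).Optf A x) (z : Fin M) (b : ℝ) (hb : 0 ≤ b)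
    (hb1 : b ≤ 1) : ul (fun k => h ((x k).l.p.map (cel2 Q z 1 b k)) (x k).l.v / (S.F k).n) + 1 ≤
      vol Q D x + ul (fun k => ∑ ω, (x k).l.T.μ ω * max (zx Q x z k ω) b) := by
  have h1 := volz_cz hD hx z b hb hb1
  set l : Lab S := lb x with hl
  have hU := cz_UB l Q z b hb1
  have hM : Tendsto (fun k => (M : ℝ) / (S.F k).n) UF (𝓝 0) := S.div_n_tendsto M
  have hle : ∀ k, h ((x k).l.p.map (cel2 Q z 1 b k)) (x k).l.v / (S.F k).n ≤
      (osp l).rt (fun k => Setoid.ker (cz (oQ l Q) z b k)) (osp l).tr k + M / (S.F k).n := by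
    intro k
    rw [rt_osp, ← add_div]
    apply div_le_div_of_nonneg_right _ (S.F k).pos.le
    have h2 := (cel_le l Q z b hb1 k ((l k).V ⊓ (l k).T.Z)).2
    exact (le_of_eq (cel2_h l Q z b k)).trans h2
  have h2 : ul (fun k => h ((x k).l.p.map (cel2 Q z 1 b k)) (x k).l.v / (S.F k).n) ≤
      ul ((osp l).rt (fun k => Setoid.ker (cz (oQ l Q) z b k)) (osp l).tr) := by
    have h3 := ul_mono (UB.sandwich (UB_const 0) (hU.add (UB_of_tendsto hM))
      (Eventually.of_forall fun k => div_nonneg (h_nonneg _ _) (S.F k).pos.le)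
      (Eventually.of_forall hle)) (hU.add (UB_of_tendsto hM)) (Eventually.of_forall hle)
    rw [ul_add hU (UB_of_tendsto hM), ul_eq hM, add_zero] at h3
    exact h3
  linarith

end

end Pool.Agent.Helper4.VZ
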