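import Pool.Agent.Helper14.MC.Fam

/-! VOLZ, deterministic part: cells in the sublevel set of a sum of squares of polynomials on a line; boxes in a set of
small volume. -/

set_option autoImplicit false

namespace Pool.Agent.Helper4.VZ

open MvPolynomial Matrix Pool.Agent.Helper95.LF Pool.Agent.Helper3.LF Pool.Agent.Helper84.MT MeasureTheory
open Pool.Agent.Helper14.MC

noncomputable section

/-- Markov inequality on an interval -/
theorem markov (D : ℕ) (f : Polynomial ℝ) (hf : f.natDegree ≤ D) (a b M t : ℝ) (hab : a < b) (ht : a ≤ t)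
    (ht' : t ≤ b) (hM : ∀ s, a ≤ s → s ≤ b → |f.eval s| ≤ M) :
    (b - a) * |(Polynomial.derivative f).eval t| ≤ Cu D * M := by
  have h1 := uni_affine D f hf 1 a (b - a) 1 t M (by linarith) le_rfl (by
    rw [one_mul, abs_of_nonneg (by linarith)]
    linarith) (by
    intro j hj
    have h2 := nod_nonneg D j
    have h3 := nod_le D j hj
    apply hM
    · have : 0 ≤ (b - a) * nod D j := mul_nonneg (by linarith) h2
      linarith
    · have : (b - a) * nod D j ≤ (b - a) * 1 := mul_le_mul_of_nonneg_left h3 (by linarith)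
      linarith)
  rw [pow_one, one_pow, mul_one] at h1
  exact h1

/-- the number of cells of side `δ` which meet an interval -/
theorem cells_interval (δ L β : ℝ) (hδ : 0 < δ) (T : Finset ℤ)
    (h : ∀ c ∈ T, ∃ t, ⌊t / δ⌋ = c ∧ β - L ≤ t ∧ t ≤ β) : T.card ≤ ⌊L / δ⌋₊ + 2 := by
  have h1 : T ⊆ Finset.Icc ⌊(β - L) / δ⌋ ⌊β / δ⌋ := by
    intro c hc
    obtain ⟨t, rfl, h2, h3⟩ := h c hc
    rw [Finset.mem_Icc]
    exact ⟨Int.floor_le_floor (div_le_div_of_nonneg_right h2 hδ.le),
      Int.floor_le_floor (div_le_div_of_nonneg_right h3 hδ.le)⟩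
  refine (Finset.card_le_card h1).trans ?_
  rw [Int.card_Icc]
  have h2 := Int.floor_le (β / δ)
  have h3 := Int.lt_floor_add_one ((β - L) / δ)
  have h4 : (β - L) / δ = β / δ - L / δ := by ring
  have h5 := Nat.lt_floor_add_one (L / δ)
  have h6 : ((⌊β / δ⌋ + 1 - ⌊(β - L) / δ⌋ : ℤ) : ℝ) < ((⌊L / δ⌋₊ + 2 + 1 : ℕ) : ℝ) := by
    push_cast
    rw [h4] at h3 ⊢
    linarith
  have h7 : (⌊β / δ⌋ + 1 - ⌊(β - L) / δ⌋ : ℤ) < ((⌊L / δ⌋₊ + 2 + 1 : ℕ) : ℤ) := by
    have h8 : ((⌊β / δ⌋ + 1 - ⌊(β - L) / δ⌋ : ℤ) : ℝ) < (((⌊L / δ⌋₊ + 2 + 1 : ℕ) : ℤ) : ℝ) := by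
      rw [Int.cast_natCast]
      exact h6
    exact_mod_cast h8
  omega

/-- the number of cells in the sublevel set of a sum of squares at which the derivative is large -/
theorem fib_cells {W : Type} [Fintype W] (D : ℕ) (R : W → Polynomial ℝ) (hR : ∀ w, (R w).natDegree ≤ D)
    (K G δ : ℝ) (hK : 1 ≤ K) (hG : 0 < G) (hδ : 0 < δ) (T : Finset ℤ) (hco : ∀ s : ℝ, s ^ 2 ≤ ∑ w, ((R w).eval s) ^ 2)
    (hT : ∀ c ∈ T, ∃ t : ℝ, ⌊t / δ⌋ = c ∧ ∑ w, ((R w).eval t) ^ 2 ≤ K ^ 2 ∧
      G ^ 2 ≤ 1 + ∑ w, ((Polynomial.derivative (R w)).eval t) ^ 2) :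
    (T.card : ℝ) ≤ 2 * D * ((2 + Fintype.card W * Cu D) * K / (G * δ) + 2) := by
  classical
  have hCu := Cu_one D
  set P : Polynomial ℝ := ∑ w, (R w) ^ 2 - Polynomial.C (K ^ 2) with hP
  have hPe : ∀ s, P.eval s = ∑ w, ((R w).eval s) ^ 2 - K ^ 2 := by
    intro s
    rw [hP, Polynomial.eval_sub, Polynomial.eval_finsetSum, Polynomial.eval_C]
    congr 1
    exact Finset.sum_congr rfl fun w _ => by rw [Polynomial.eval_pow]
  have hPd : P.natDegree ≤ 2 * D := by
    refine (Polynomial.natDegree_sub_le _ _).trans (max_le ?_ (by simp))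
    refine Polynomial.natDegree_sum_le_of_forall_le _ _ fun w _ => ?_
    exact Polynomial.natDegree_pow_le.trans (Nat.mul_le_mul_left 2 (hR w))
  have hP1 : 0 < P.eval (K + 1) := by
    rw [hPe]
    have := hco (K + 1)
    nlinarith
  have hP0 : P ≠ 0 := by
    intro h
    rw [h, Polynomial.eval_zero] at hP1
    exact lt_irrefl _ hP1
  set L : ℝ := (2 + Fintype.card W * Cu D) * K / G with hL
  have hL0 : 0 ≤ L := by positivity
  -- every cell is near a root
  have key : ∀ c ∈ T, ∃ β ∈ P.roots.toFinset, ∃ t, ⌊t / δ⌋ = c ∧ β - L ≤ t ∧ t ≤ β := by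
    intro c hc
    obtain ⟨t, h1, h2, h3⟩ := hT c hc
    have ht : P.eval t ≤ 0 := by rw [hPe]; linarith
    have htK : |t| ≤ K := by
      have := hco t
      exact abs_le_of_sq_le_sq (by linarith) (by linarith)
    have htK' := abs_le.1 htK
    -- the roots to the right
    have hcont : Continuous fun s => P.eval s := P.continuous
    have hroot : ∀ s, t ≤ s → 0 ≤ P.eval s → ∃ β, t ≤ β ∧ β ≤ s ∧ P.eval β = 0 := by
      intro s hs h0
      have h4 := intermediate_value_Icc hs hcont.continuousOn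
      obtain ⟨β, h5, h6⟩ := h4 ⟨ht, h0⟩
      exact ⟨β, h5.1, h5.2, h6⟩
    set F : Finset ℝ := P.roots.toFinset.filter (fun s => t ≤ s) with hF
    have hmem : ∀ s, s ∈ F ↔ P.eval s = 0 ∧ t ≤ s := by
      intro s
      rw [hF, Finset.mem_filter, Multiset.mem_toFinset, Polynomial.mem_roots hP0]
      rfl
    have hne : F.Nonempty := by
      obtain ⟨β, h4, _, h6⟩ := hroot (K + 1) (by linarith) hP1.le
      exact ⟨β, (hmem β).2 ⟨h6, h4⟩⟩
    set β := F.min' hne with hβ
    have hβF : β ∈ F := Finset.min'_mem _ _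
    have hβ1 := (hmem β).1 hβF
    have hin : ∀ s, t ≤ s → s ≤ β → P.eval s ≤ 0 := by
      intro s h4 h5
      by_contra h6
      push Not at h6
      obtain ⟨β', h7, h8, h9⟩ := hroot s h4 h6.le
      have h10 : β ≤ β' := Finset.min'_le _ _ ((hmem β').2 ⟨h9, h7⟩)
      have h11 : s = β := le_antisymm h5 (h10.trans h8)
      rw [h11, hβ1.1] at h6
      exact lt_irrefl _ h6
    refine ⟨β, by rw [Multiset.mem_toFinset, Polynomial.mem_roots hP0]; exact hβ1.1, t, h1, ?_, hβ1.2⟩
    rcases eq_or_lt_of_le hβ1.2 with h4 | h4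
    · rw [h4]; linarith
    · have hlen : 0 < β - t := by linarith
      have hle : ∀ w s, t ≤ s → s ≤ β → |(R w).eval s| ≤ K := by
        intro w s h5 h6
        have h7 := hin s h5 h6
        rw [hPe] at h7
        have h8 : ((R w).eval s) ^ 2 ≤ ∑ w, ((R w).eval s) ^ 2 :=
          Finset.single_le_sum (f := fun w => ((R w).eval s) ^ 2) (fun _ _ => sq_nonneg _) (Finset.mem_univ w)
        exact abs_le_of_sq_le_sq (by linarith) (by linarith)
      have hd : ∀ w, ((β - t) * |(Polynomial.derivative (R w)).eval t|) ^ 2 ≤ (Cu D * K) ^ 2 := by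
        intro w
        have h5 := markov D (R w) (hR w) t β K t h4 le_rfl h4.le (hle w)
        exact pow_le_pow_left₀ (by positivity) h5 2
      have hβK : |β| ≤ K := by
        have h5 := hin β h4.le le_rfl
        rw [hPe] at h5
        have := hco β
        exact abs_le_of_sq_le_sq (by linarith) (by linarith)
      have hβK' := abs_le.1 hβK
      have h5 : (β - t) ^ 2 * ∑ w, ((Polynomial.derivative (R w)).eval t) ^ 2 ≤
          Fintype.card W * (Cu D * K) ^ 2 := by
        rw [Finset.mul_sum]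
        have h6 : ∀ w ∈ (Finset.univ : Finset W), (β - t) ^ 2 * ((Polynomial.derivative (R w)).eval t) ^ 2 ≤
            (Cu D * K) ^ 2 := by
          intro w _
          have h7 := hd w
          rw [mul_pow, sq_abs] at h7
          exact h7
        refine (Finset.sum_le_card_nsmul _ _ _ h6).trans (le_of_eq ?_)
        rw [Finset.card_univ, nsmul_eq_mul]
      have h6 : (β - t) ^ 2 ≤ (2 * K) ^ 2 := pow_le_pow_left₀ hlen.le (by linarith) 2
      have h7 : ((β - t) * G) ^ 2 ≤ ((2 + Fintype.card W * Cu D) * K) ^ 2 := by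
        have h8 : ((β - t) * G) ^ 2 ≤ (β - t) ^ 2 * (1 + ∑ w, ((Polynomial.derivative (R w)).eval t) ^ 2) := by
          rw [mul_pow]
          exact mul_le_mul_of_nonneg_left h3 (sq_nonneg _)
        refine h8.trans ?_
        rw [mul_add, mul_one]
        have h9 : (Fintype.card W : ℝ) * (Cu D * K) ^ 2 ≤ (Fintype.card W * Cu D * K) ^ 2 := by
          rcases Nat.eq_zero_or_pos (Fintype.card W) with h0 | h0
          · rw [h0]; simp
          · have h10 : (1 : ℝ) ≤ Fintype.card W := by exact_mod_cast h0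
            have h11 : 0 ≤ (Cu D * K) ^ 2 := sq_nonneg _
            have h12 : (Fintype.card W * Cu D * K) ^ 2 = (Fintype.card W) ^ 2 * (Cu D * K) ^ 2 := by ring
            rw [h12]
            apply mul_le_mul_of_nonneg_right _ h11
            nlinarith
        have h10 : 0 ≤ (Fintype.card W * Cu D * K) * K := by positivity
        nlinarith
      have h8 : (β - t) * G ≤ (2 + Fintype.card W * Cu D) * K :=
        (le_abs_self _).trans (abs_le_of_sq_le_sq h7 (by positivity))
      have h9 : β - t ≤ L := by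
        rw [hL, le_div_iff₀ hG]
        exact h8
      linarith
  choose! b hb1 hb2 using key
  have h1 := Finset.card_le_mul_card_image (f := b) T (⌊L / δ⌋₊ + 2) (by
    intro β _
    apply cells_interval δ L β hδ
    intro c hc
    rw [Finset.mem_filter] at hc
    have h2 := hb2 c hc.1
    rw [hc.2] at h2
    exact h2)
  have h2 : (T.image b).card ≤ 2 * D := by
    have h3 : T.image b ⊆ P.roots.toFinset := by
      intro x hx
      obtain ⟨c, hc, rfl⟩ := Finset.mem_image.1 hx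
      exact hb1 c hc
    exact (Finset.card_le_card h3).trans ((Multiset.toFinset_card_le _).trans ((Polynomial.card_roots' _).trans hPd))
  have h3 : T.card ≤ (⌊L / δ⌋₊ + 2) * (2 * D) := h1.trans (Nat.mul_le_mul_left _ h2)
  have h4 : (T.card : ℝ) ≤ (⌊L / δ⌋₊ + 2) * (2 * D) := by exact_mod_cast h3
  have h5 : (⌊L / δ⌋₊ : ℝ) ≤ L / δ := Nat.floor_le (div_nonneg hL0 hδ.le)
  have h6 : L / δ = (2 + Fintype.card W * Cu D) * K / (G * δ) := by
    rw [hL, div_div]
  rw [← h6]
  have h7 : (0 : ℝ) ≤ 2 * D := by positivity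
  calc (T.card : ℝ) ≤ (⌊L / δ⌋₊ + 2) * (2 * D) := h4
    _ ≤ (L / δ + 2) * (2 * D) := mul_le_mul_of_nonneg_right (by linarith) h7
    _ = _ := by ring

/-! ### boxes -/

/-- boxes in a set of small volume -/
theorem box_cells {M : ℕ} (z : Fin M) (δ δ' w θ : ℝ) (hδ : 0 < δ) (hδ' : 0 < δ') (hw : 0 < w) (hw' : 2 * w ≤ δ')
    (hθ : 0 ≤ θ) (T : Finset (Fin M → ℤ)) (U : Set (Fin M → ℝ)) (hU : volume U ≤ ENNReal.ofReal θ)
    (hT : ∀ a ∈ T, ∃ y : Fin M → ℝ, (∀ i, i ≠ z → ⌊y i / δ⌋ = a i) ∧ ⌊y z / δ'⌋ = a z ∧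
      ∀ P : Fin M → ℝ, (∀ i, i ≠ z → |P i - y i| ≤ δ) → |P z - y z| ≤ w → P ∈ U) :
    (T.card : ℝ) * (δ ^ M * (w / δ)) ≤ θ := by
  classical
  have hfl : ∀ (x d : ℝ) (c : ℤ), 0 < d → (⌊x / d⌋ = c ↔ c * d ≤ x ∧ x < (c + 1) * d) := by
    intro x d c hd
    rw [Int.floor_eq_iff, le_div_iff₀ hd, div_lt_iff₀ hd]
  -- the boxes
  have hbox : ∀ a : Fin M → ℤ, ∃ u : ℝ, a ∈ T → (a z * δ' ≤ u ∧ u + w ≤ (a z + 1) * δ' ∧
      ∀ P : Fin M → ℝ, (∀ i, i ≠ z → a i * δ ≤ P i ∧ P i < (a i + 1) * δ) → u ≤ P z → P z < u + w → P ∈ U) := by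
    intro a
    by_cases ha : a ∈ T
    · obtain ⟨y, h1, h2, h3⟩ := hT a ha
      rw [hfl _ _ _ hδ'] at h2
      have h4 : ∀ P : Fin M → ℝ, (∀ i, i ≠ z → a i * δ ≤ P i ∧ P i < (a i + 1) * δ) →
          ∀ i, i ≠ z → |P i - y i| ≤ δ := by
        intro P hP i hi
        have h5 := hP i hi
        have h6 := (hfl _ _ _ hδ).1 (h1 i hi)
        rw [abs_le]
        constructor <;> nlinarith
      by_cases h5 : y z + w ≤ (a z + 1) * δ'
      · refine ⟨y z, fun _ => ⟨h2.1, h5, fun P h6 h7 h8 => h3 P (h4 P h6) ?_⟩⟩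
        rw [abs_le]
        constructor <;> linarith
      · push Not at h5
        refine ⟨y z - w, fun _ => ⟨by nlinarith, by linarith [h2.2], fun P h6 h7 h8 => h3 P (h4 P h6) ?_⟩⟩
        rw [abs_le]
        constructor <;> linarith
    · exact ⟨0, fun h => absurd h ha⟩
  choose u hu using hbox
  set lo : (Fin M → ℤ) → Fin M → ℝ := fun a i => if i = z then u a else a i * δ with hlo
  set hi : (Fin M → ℤ) → Fin M → ℝ := fun a i => if i = z then u a + w else (a i + 1) * δ with hhi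
  set B : (Fin M → ℤ) → Set (Fin M → ℝ) := fun a => Set.pi Set.univ fun i => Set.Ico (lo a i) (hi a i) with hB
  have hmemB : ∀ a x, x ∈ B a → (∀ i, i ≠ z → a i * δ ≤ x i ∧ x i < (a i + 1) * δ) ∧ u a ≤ x z ∧ x z < u a + w := by
    intro a x hx
    rw [hB] at hx
    simp only [Set.mem_pi, Set.mem_univ, true_implies, Set.mem_Ico] at hx
    refine ⟨fun i hi' => ?_, ?_⟩
    · have := hx i
      simp only [hlo, hhi, if_neg hi'] at this
      exact this
    · have := hx z
      simp only [hlo, hhi, if_true] at this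
      exact this
  have hvolB : ∀ a, volume (B a) = ENNReal.ofReal (δ ^ M * (w / δ)) := by
    intro a
    rw [hB]
    dsimp only
    rw [Real.volume_pi_Ico]
    have h1 : ∀ i, hi a i - lo a i = δ * (if i = z then w / δ else 1) := by
      intro i
      simp only [hlo, hhi]
      by_cases h : i = z
      · rw [if_pos h, if_pos h, if_pos h]
        field_simp
        ring
      · rw [if_neg h, if_neg h, if_neg h]
        ring
    rw [← ENNReal.ofReal_prod_of_nonneg]
    · congr 1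
      rw [Finset.prod_congr rfl fun i _ => h1 i, Finset.prod_mul_distrib, Finset.prod_const, Finset.card_univ,
        Fintype.card_fin, Finset.prod_ite_eq' Finset.univ z, if_pos (Finset.mem_univ z)]
    · intro i _
      rw [h1 i]
      split_ifs <;> positivity
  have hdisj : Set.PairwiseDisjoint (T : Set (Fin M → ℤ)) B := by
    intro a ha a' ha' hne
    rw [Function.onFun, Set.disjoint_left]
    intro x hx hx'
    apply hne
    obtain ⟨h1, h2, h3⟩ := hmemB a x hx
    obtain ⟨h1', h2', h3'⟩ := hmemB a' x hx'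
    funext i
    by_cases hi' : i = z
    · rw [hi']
      have h4 := hu a ha
      have h5 := hu a' ha'
      have h6 : ⌊x z / δ'⌋ = a z := (hfl _ _ _ hδ').2 ⟨by linarith [h4.1], by linarith [h4.2.1]⟩
      have h7 : ⌊x z / δ'⌋ = a' z := (hfl _ _ _ hδ').2 ⟨by linarith [h5.1], by linarith [h5.2.1]⟩
      rw [← h6, h7]
    · rw [← (hfl _ _ _ hδ).2 (h1 i hi'), (hfl _ _ _ hδ).2 (h1' i hi')]
  have h1 : volume (⋃ a ∈ T, B a) = ENNReal.ofReal (T.card * (δ ^ M * (w / δ))) := by
    rw [measure_biUnion_finset hdisj]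
    · simp only [hvolB]
      rw [Finset.sum_const, nsmul_eq_mul, ENNReal.ofReal_mul (Nat.cast_nonneg (T.card)), ENNReal.ofReal_natCast]
    · intro a _
      exact MeasurableSet.univ_pi fun i => measurableSet_Ico
  have h2 : volume (⋃ a ∈ T, B a) ≤ ENNReal.ofReal θ := by
    refine (measure_mono (Set.iUnion₂_subset ?_)).trans hU
    intro a ha x hx
    obtain ⟨h3, h4, h5⟩ := hmemB a x hx
    exact (hu a ha).2.2 x h3 h4 h5
  rw [h1] at h2
  exact (ENNReal.ofReal_le_ofReal_iff hθ).1 h2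

end

end Pool.Agent.Helper4.VZ
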