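import Pool.Agent.Helper14.MC.Cnt

/-! VOLZ: entropy bounds by counting the values of a variable on the fibres of a base, asymptotic form. -/

set_option autoImplicit false

namespace Pool.Agent.Helper4.VZ

open Finset Filter Topology Pool.Agent.Helper69.RK Pool.Agent.Helper31.EC Pool.Agent.Helper31.EC.Sp
open Pool.Agent.Helper59.EV (CH_lab CH_cardv)
open Pool.Agent.Helper14.MC (res_of res_of_not)
open Pool.Agent.Helper59.EN (mass_nn res_nn)

noncomputable section

/-- the finite form -/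
theorem fin_card {α Ω ζ : Type} [Fintype Ω] (μ : Ω → ℝ) (Z : Ω → ζ) (X : Ω → α) (E : Ω → Prop) (c : Ω → ℝ)
    (j : Ω → ℕ) (J : ℕ) (B : ℝ) (hμ : ∀ ω, 0 ≤ μ ω) (hm : mass μ = 1) (hj : ∀ ω, μ ω ≠ 0 → j ω ≤ J)
    (hc : ∀ ω, μ ω ≠ 0 → E ω → ∀ T : Finset α,
      (∀ a ∈ T, ∃ ω', μ ω' ≠ 0 ∧ E ω' ∧ Z ω' = Z ω ∧ j ω' = j ω ∧ X ω' = a) → (T.card : ℝ) ≤ c ω)
    (hB : ∀ T : Finset α, (∀ a ∈ T, ∃ ω', μ ω' ≠ 0 ∧ X ω' = a) → (T.card : ℝ) ≤ B) :
    CH μ X Z ≤ Real.logb 2 (J + 2) + (∑ ω, res μ E ω * Real.logb 2 (c ω)) +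
      Real.logb 2 B * mass (res μ (fun ω => ¬ E ω)) := by
  classical
  set j' : Ω → ℕ := fun ω => if E ω then j ω + 1 else 0 with hj'
  have h1 := CH_lab μ X Z j' (J + 1) hμ hm (by
    intro ω hω
    rw [hj']
    dsimp only
    split_ifs
    · have := hj ω hω
      omega
    · exact Nat.zero_le _)
  set c' : Ω → ℝ := fun ω => if E ω then c ω else B with hc'
  have h2 := CH_cardv μ X (fun ω => (Z ω, j' ω)) c' hμ (by
    intro ω hω T hT
    rw [hc']
    dsimp only
    by_cases hE : E ω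
    · rw [if_pos hE]
      apply hc ω hω hE T
      intro a ha
      obtain ⟨ω', h3, h4, h5⟩ := hT a ha
      rw [Prod.mk.injEq] at h4
      have h6 : E ω' := by
        by_contra h6
        have h7 := h4.2
        rw [hj'] at h7
        dsimp only at h7
        rw [if_neg h6, if_pos hE] at h7
        omega
      have h7 : j ω' = j ω := by
        have h7 := h4.2
        rw [hj'] at h7
        dsimp only at h7
        rw [if_pos h6, if_pos hE] at h7
        omega
      exact ⟨ω', h3, h6, h4.1, h7, h5⟩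
    · rw [if_neg hE]
      apply hB T
      intro a ha
      obtain ⟨ω', h3, _, h5⟩ := hT a ha
      exact ⟨ω', h3, h5⟩)
  have h3 : ∑ ω, μ ω * Real.logb 2 (c' ω) = (∑ ω, res μ E ω * Real.logb 2 (c ω)) +
      Real.logb 2 B * mass (res μ (fun ω => ¬ E ω)) := by
    unfold mass
    rw [Finset.mul_sum, ← Finset.sum_add_distrib]
    refine Finset.sum_congr rfl fun ω _ => ?_
    rw [hc']
    dsimp only
    by_cases hE : E ω
    · have e1 : res μ (fun ω => ¬ E ω) ω = 0 := res_of_not μ (fun ω => ¬ E ω) ω (not_not.mpr hE)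
      have e2 : res μ E ω = μ ω := res_of μ E ω hE
      rw [if_pos hE, e2, e1, mul_zero, add_zero]
    · have e1 : res μ (fun ω => ¬ E ω) ω = μ ω := res_of μ (fun ω => ¬ E ω) ω hE
      have e2 : res μ E ω = 0 := res_of_not μ E ω hE
      rw [if_neg hE, e2, e1, zero_mul, zero_add, mul_comm]
  rw [h3] at h2
  have h4 : ((J + 1 : ℕ) : ℝ) + 1 = J + 2 := by
    push_cast
    ring
  rw [h4] at h1
  linarith

/-- the asymptotic form -/
theorem CNT_gen {S : Sp} {α : ℕ → Type} (X : ∀ k, (S.F k).Ω → α k) (Zb : ∀ k, Setoid (S.F k).Ω)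
    (E : ∀ k, (S.F k).Ω → Prop) (hE : Typ E) (ρ : ∀ k, (S.F k).Ω → ℝ) (R : ℝ)
    (hρ : ∀ᶠ k in UF, ∀ ω, (S.F k).μ ω ≠ 0 → |ρ k ω| ≤ R) (j : ∀ k, (S.F k).Ω → ℕ) (J : ℕ)
    (hj : ∀ᶠ k in UF, ∀ ω, (S.F k).μ ω ≠ 0 → j k ω ≤ J) (K : ℕ → ℝ) (hK : S.Sub K)
    (hc : ∀ᶠ k in UF, ∀ ω, (S.F k).μ ω ≠ 0 → E k ω → ∀ T : Finset (α k),
      (∀ a ∈ T, ∃ ω', (S.F k).μ ω' ≠ 0 ∧ E k ω' ∧ Zb k ω' ω ∧ (S.F k).Z ω' ω ∧ j k ω' = j k ω ∧ X k ω' = a) →
        (T.card : ℝ) ≤ K k * 2 ^ (ρ k ω * (S.F k).n))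
    (C : ℝ) (hB : ∀ᶠ k in UF, ∀ T : Finset (α k), (∀ a ∈ T, ∃ ω', (S.F k).μ ω' ≠ 0 ∧ X k ω' = a) →
      (T.card : ℝ) ≤ 2 ^ (C * (S.F k).n)) :
    UB (S.rt (fun k => Setoid.ker (X k)) Zb) ∧
    ul (S.rt (fun k => Setoid.ker (X k)) Zb) ≤ ul (fun k => ∑ ω, (S.F k).μ ω * ρ k ω) := by
  classical
  set g : ℕ → ℝ := fun k => ∑ ω, (S.F k).μ ω * ρ k ω with hg
  have hmass : ∀ k, ∑ ω, (S.F k).μ ω = 1 := fun k => (S.F k).ms
  have hgU : UB g := by
    refine UB.sandwich (UB_const (-R)) (UB_const R) ?_ ?_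
    · filter_upwards [hρ] with k hk
      have h1 := Pool.Agent.Helper89.LX.sum_mul_le (F := S.F k) (fun ω => -ρ k ω) R
        fun ω hω => (neg_le_abs _).trans (hk ω hω)
      have h2 : ∑ ω, (S.F k).μ ω * -ρ k ω = -g k := by
        rw [hg]
        dsimp only
        rw [← Finset.sum_neg_distrib]
        exact Finset.sum_congr rfl fun ω _ => by ring
      rw [h2] at h1
      linarith
    · filter_upwards [hρ] with k hk
      exact Pool.Agent.Helper89.LX.sum_mul_le _ _ fun ω hω => (le_abs_self _).trans (hk ω hω)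
  set p0 : ℕ → ℝ := fun k => mass (res (S.F k).μ (fun ω => ¬ E k ω)) with hp0
  have hp0t : Tendsto p0 UF (𝓝 0) := hE
  set lJ : ℝ := Real.logb 2 (J + 2) with hlJ
  have hlJ0 : 0 ≤ lJ := Real.logb_nonneg (by norm_num) (by
    have : (0 : ℝ) ≤ J := Nat.cast_nonneg J
    linarith)
  set f : ℕ → ℝ := fun k => lJ / (S.F k).n + Real.logb 2 (K k + 2) / (S.F k).n + (C + R) * p0 k with hf
  have hft : Tendsto f UF (𝓝 0) := by
    have t1 := S.div_n_tendsto lJ
    have t2 := hK.2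
    have t3 := hp0t.const_mul (C + R)
    have t4 := (t1.add t2).add t3
    simpa using t4
  have hkey : ∀ᶠ k in UF, S.rt (fun k => Setoid.ker (X k)) Zb k ≤ f k + g k := by
    filter_upwards [hρ, hj, hc, hB, hK.1] with k b1 b2 b3 b4 b5
    have hn := (S.F k).pos
    have hfin := fin_card (S.F k).μ (Quotient.mk (Zb k ⊓ (S.F k).Z)) (X k) (E k)
      (fun ω => (K k + 1) * 2 ^ (ρ k ω * (S.F k).n)) (j k) J (2 ^ (C * (S.F k).n)) (S.F k).nn (S.F k).ms b2 (by
        intro ω hω hEω T hT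
        have h1 := b3 ω hω hEω T (by
          intro a ha
          obtain ⟨ω', h2, h3, h4, h5, h6⟩ := hT a ha
          have h7 := Quotient.exact h4
          exact ⟨ω', h2, h3, h7.1, h7.2, h5, h6⟩)
        have h2 : (0 : ℝ) < 2 ^ (ρ k ω * (S.F k).n) := by positivity
        nlinarith) b4
    have hcy : CH (S.F k).μ (X k) (Quotient.mk (Zb k ⊓ (S.F k).Z)) =
        S.rt (fun k => Setoid.ker (X k)) Zb k * (S.F k).n := by
      unfold rt
      rw [div_mul_cancel₀ _ hn.ne']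
      symm
      apply FSp.e_congr
      · intro ω ω' _ _
        exact Iff.rfl
      · intro ω ω' _ _
        constructor
        · intro h2
          exact Quotient.sound h2
        · intro h1
          exact Quotient.exact h1
    rw [hcy, Real.logb_rpow (by norm_num) (by norm_num)] at hfin
    have l0 : 0 ≤ Real.logb 2 (K k + 2) := Real.logb_nonneg (by norm_num) (by linarith)
    have l2 : ∀ ω, Real.logb 2 ((K k + 1) * 2 ^ (ρ k ω * (S.F k).n)) ≤
        Real.logb 2 (K k + 2) + ρ k ω * (S.F k).n := by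
      intro ω
      rw [Real.logb_mul (by positivity) (by positivity), Real.logb_rpow (by norm_num) (by norm_num)]
      have : Real.logb 2 (K k + 1) ≤ Real.logb 2 (K k + 2) :=
        Real.logb_le_logb_of_le (by norm_num) (by linarith) (by linarith)
      linarith
    have hp0k : 0 ≤ p0 k := mass_nn _ (res_nn _ _ (S.F k).nn)
    have l3 : ∑ ω, res (S.F k).μ (E k) ω * Real.logb 2 ((K k + 1) * 2 ^ (ρ k ω * (S.F k).n)) ≤
        Real.logb 2 (K k + 2) + g k * (S.F k).n + R * (S.F k).n * p0 k := by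
      have h1 : ∀ ω, res (S.F k).μ (E k) ω * Real.logb 2 ((K k + 1) * 2 ^ (ρ k ω * (S.F k).n)) ≤
          (S.F k).μ ω * (Real.logb 2 (K k + 2) + ρ k ω * (S.F k).n) +
            R * (S.F k).n * res (S.F k).μ (fun ω => ¬ E k ω) ω := by
        intro ω
        by_cases hEω : E k ω
        · rw [res_of _ _ _ hEω, res_of_not (S.F k).μ (fun ω => ¬ E k ω) ω (not_not.mpr hEω), mul_zero, add_zero]
          exact mul_le_mul_of_nonneg_left (l2 ω) ((S.F k).nn ω)
        · rw [res_of_not _ _ _ hEω, zero_mul, res_of (S.F k).μ (fun ω => ¬ E k ω) ω hEω]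
          by_cases hω : (S.F k).μ ω = 0
          · rw [hω, zero_mul, mul_zero, add_zero]
          · have h2 := (abs_le.1 (b1 ω hω)).1
            have h3 : 0 ≤ (Real.logb 2 (K k + 2) + ρ k ω * (S.F k).n) + R * (S.F k).n := by nlinarith
            have h4 := mul_nonneg ((S.F k).nn ω) h3
            linarith
      refine (Finset.sum_le_sum fun ω _ => h1 ω).trans (le_of_eq ?_)
      have h2 : ∀ ω, (S.F k).μ ω * (Real.logb 2 (K k + 2) + ρ k ω * (S.F k).n) +
            R * (S.F k).n * res (S.F k).μ (fun ω => ¬ E k ω) ω =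
          (S.F k).μ ω * Real.logb 2 (K k + 2) + ((S.F k).μ ω * ρ k ω) * (S.F k).n +
            R * (S.F k).n * res (S.F k).μ (fun ω => ¬ E k ω) ω := fun ω => by ring
      rw [Finset.sum_congr rfl (fun ω _ => h2 ω), Finset.sum_add_distrib, Finset.sum_add_distrib,
        ← Finset.sum_mul, ← Finset.sum_mul, ← Finset.mul_sum, hmass, one_mul]
      rfl
    have hfin2 : S.rt (fun k => Setoid.ker (X k)) Zb k * (S.F k).n ≤ (f k + g k) * (S.F k).n := by
      have e1 : (f k + g k) * (S.F k).n = lJ + Real.logb 2 (K k + 2) + (C + R) * (S.F k).n * p0 k +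
          g k * (S.F k).n := by
        rw [hf]
        beta_reduce
        field_simp
      rw [e1]
      have e2 : C * (S.F k).n * mass (res (S.F k).μ (fun ω => ¬ E k ω)) = C * (S.F k).n * p0 k := rfl
      rw [e2] at hfin
      nlinarith
    exact le_of_mul_le_mul_right hfin2 hn
  have hfU := UB_of_tendsto hft
  have hU : UB (S.rt (fun k => Setoid.ker (X k)) Zb) :=
    UB.sandwich (UB_const 0) (hfU.add hgU) (Eventually.of_forall fun k => rt_nonneg _ _ k) hkey
  refine ⟨hU, ?_⟩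
  have h1 := ul_mono hU (hfU.add hgU) hkey
  rw [ul_add hfU hgU, ul_eq hft, zero_add] at h1
  exact h1

end

end Pool.Agent.Helper4.VZ
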