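import Pool.Agent.Helper4.VZ.Top

/-! VOLZ, second part: the number of cells of level `b` of the coordinate `z` over the cells of level one of the other
coordinates and the label (no optimality): `h(z_b | P_1, κ) ≤ E (b - η_z)^+`. -/

set_option autoImplicit false

namespace Pool.Agent.Helper4.VZ

open Finset Filter Topology MvPolynomial MeasureTheory Matrix Pool.Agent.Helper69.RK
open Pool.Agent.Helper31.EC Pool.Agent.Helper31.EC.Sp Pool.Agent.Helper95.LF Pool.Agent.Helper40.EL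
open Pool.Agent.Helper3.LF Pool.Agent.Helper89.LX Pool.Agent.Helper84.MT Pool.Agent.Helper14.MC
open Pool.Agent.Helper42.NS (osp u1 u1_dg u1_h osp_dl)
open Pool.Agent.Helper36.AM (cel2)

noncomputable section

section det

variable {M D : ℕ}

theorem dir_sgl (z : Fin M) (q : MvPolynomial (Fin M) ℝ) : dir (sgl z) q = pderiv z q := by
  classical
  unfold dir sgl
  rw [Finset.sum_eq_single z]
  · rw [Pi.single_eq_same, map_one, one_mul]
  · intro b _ hb
    rw [Pi.single_eq_of_ne hb, map_zero, zero_mul]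
  · intro h
    exact absurd (Finset.mem_univ z) h

/-- the number of rows -/
def nw (M D : ℕ) : ℕ := Fintype.card (Mon M D × (Fin M → Fin (D + 1)))

/-- cells of `z` on a line in the direction `z` at which the form is small and its derivative is large -/
theorem line_cells (hD : 1 ≤ D) (r : ℝ) (A : Matrix (Mon M D) (Mon M D) ℝ) (hs : A.IsSymm)
    (h1 : ∀ x : Mon M D → ℝ, x ⬝ᵥ x ≤ x ⬝ᵥ (A *ᵥ x)) (z : Fin M) (p : Fin M → ℝ) (hp : p z = 0) (K G δ : ℝ)
    (hK : 1 ≤ K) (hG : 0 < G) (hδ : 0 < δ) (T : Finset ℤ)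
    (hT : ∀ c ∈ T, ∃ t : ℝ, ⌊t / δ⌋ = c ∧ phi r A (fun k => p k + t * sgl z k) ≤ K ^ 2 ∧
      G ^ 2 ≤ 1 + Jq r A (fun k => p k + t * sgl z k) z z) :
    (T.card : ℝ) ≤ 2 * D * ((2 + nw M D * Cu D) * K / (G * δ) + 2) := by
  classical
  have hA : PdM A := pdM_of_one_le hs h1
  obtain ⟨C', hC, -⟩ := exists_factor A hA
  have he : ∀ (w : Mon M D × (Fin M → Fin (D + 1))) (t : ℝ), (lnp p (sgl z) (rowq r C' w)).eval t =
      eval (fun k => p k + t * sgl z k) (rowq r C' w) := fun w t => lnp_eval _ _ _ _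
  have hd : ∀ (w : Mon M D × (Fin M → Fin (D + 1))) (t : ℝ),
      (Polynomial.derivative (lnp p (sgl z) (rowq r C' w))).eval t =
      eval (fun k => p k + t * sgl z k) (pderiv z (rowq r C' w)) := by
    intro w t
    rw [lnp_deriv, lnp_eval, dir_sgl]
  have hphi : ∀ t : ℝ, ∑ w, ((lnp p (sgl z) (rowq r C' w)).eval t) ^ 2 =
      phi r A (fun k => p k + t * sgl z k) := by
    intro t
    rw [hC, phi_rowq]
    exact Finset.sum_congr rfl fun w _ => by rw [he]
  have hJ : ∀ t : ℝ, ∑ w, ((Polynomial.derivative (lnp p (sgl z) (rowq r C' w))).eval t) ^ 2 =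
      Jq r A (fun k => p k + t * sgl z k) z z := by
    intro t
    rw [hC, Jq_rowq]
    exact Finset.sum_congr rfl fun w _ => by rw [hd, pow_two]
  have h2 := fib_cells D (fun w => lnp p (sgl z) (rowq r C' w))
    (fun w => (lnp_deg _ _ _).trans (rowq_deg r C' w)) K G δ hK hG hδ T (by
      intro s
      rw [hphi]
      have h3 := coord_le_phi hD r A h1 (fun k => p k + s * sgl z k) z
      have h4 : p z + s * sgl z z = s := by
        unfold sgl
        rw [hp, Pi.single_eq_same]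
        ring
      rw [h4] at h3
      exact h3) (by
      intro c hc
      obtain ⟨t, a1, a2, a3⟩ := hT c hc
      refine ⟨t, a1, ?_, ?_⟩
      · rw [hphi]
        exact a2
      · rw [hJ]
        exact a3)
  exact h2

end det

variable {S : Sp} {M D : ℕ}

/-- the cell of level `b` of the coordinate `z` -/
def zc (y : S.VV M) (z : Fin M) (b : ℝ) (k : ℕ) (ω : (S.F k).Ω) : ℤ := ⌊y.v k ω z / S.dl b k⌋

/-- the cells of level one of the other coordinates -/
def pc (y : S.VV M) (z : Fin M) (k : ℕ) (ω : (S.F k).Ω) : Fin M → ℤ :=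
  fun i => if i = z then 0 else ⌊y.v k ω i / S.dl 1 k⌋

theorem zc_card (y : S.VV M) (z : Fin M) (b : ℝ) (hb1 : b ≤ 1) : ∀ᶠ k in UF,
    ∀ T : Finset ℤ, (∀ a ∈ T, ∃ ω', (S.F k).μ ω' ≠ 0 ∧ zc y z b k ω' = a) →
      (T.card : ℝ) ≤ 2 ^ (2 * M * (S.F k).n) := by
  classical
  filter_upwards [cz_card y z b hb1] with k hk T hT
  have hT' : ∀ a : {a // a ∈ T}, ∃ ω', (S.F k).μ ω' ≠ 0 ∧ zc y z b k ω' = a.1 := fun a => hT a.1 a.2
  choose ω h1 h2 using hT'
  have h3 : (T.attach.image fun a => cz y z b k (ω a)).card = T.card := by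
    rw [Finset.card_image_of_injective, Finset.card_attach]
    intro a a' h4
    have h5 := congrFun (show cz y z b k (ω a) = cz y z b k (ω a') from h4) z
    unfold cz at h5
    simp only [if_true] at h5
    apply Subtype.ext
    rw [← h2 a, ← h2 a']
    exact h5
  rw [← h3]
  apply hk
  intro c hc
  obtain ⟨a, -, rfl⟩ := Finset.mem_image.1 hc
  exact ⟨ω a, h1 a, rfl⟩

/-- THE FIBRE COUNT -/
theorem CNT_fb (hD : 1 ≤ D) (y : S.VV M) (z : Fin M)
    (A : ∀ k, (S.F k).Ω → Matrix (Mon M D) (Mon M D) ℝ) (C : ℝ)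
    (hA : ∀ᶠ k in UF, ∀ ω, (S.F k).μ ω ≠ 0 → Cpd (2 ^ (C * (S.F k).n)) (A k ω))
    (hZ : ∀ᶠ k in UF, ∀ ω ω', (S.F k).μ ω ≠ 0 → (S.F k).μ ω' ≠ 0 → (S.F k).Z ω ω' → A k ω = A k ω')
    (E : ∀ k, (S.F k).Ω → Prop) (hE : Typ E) (K0 : ℕ → ℝ) (hK0 : S.Sub K0)
    (hφE : ∀ᶠ k in UF, ∀ ω, (S.F k).μ ω ≠ 0 → E k ω → phi (S.dl 1 k) (A k ω) (y.v k ω) ≤ K0 k)
    (Cz : ℝ) (hz : ∀ᶠ k in UF, ∀ ω, (S.F k).μ ω ≠ 0 → 0 ≤ zex y A z k ω ∧ zex y A z k ω ≤ Cz)
    (b : ℝ) (hb : 0 ≤ b) (hb1 : b ≤ 1) :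
    ul (S.rt (fun k => Setoid.ker (zc y z b k)) (fun k => Setoid.ker (pc y z k))) ≤
      ul (fun k => ∑ ω, (S.F k).μ ω * max (b - zex y A z k ω) 0) := by
  have hCu := Cu_one D
  have hCm := Cm_one M D
  have hnn := nn_one M D
  have hcQ := cQ_one M D
  set c0 : ℝ := nn M D * (Cu D * Cm M D * 2 ^ D) ^ 2 + 1 with hc0
  have hc01 : 1 ≤ c0 := by
    have h2 : 0 ≤ nn M D * (Cu D * Cm M D * 2 ^ D) ^ 2 := by positivity
    linarith
  set c1 : ℝ := cQ M D * 2 ^ (2 * D) with hc1
  have hc11 : 1 ≤ c1 := one_le_mul_of_one_le_of_one_le hcQ (one_le_pow₀ (by norm_num))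
  have hmU : UB (fun k => ∑ ω, (S.F k).μ ω * max (b - zex y A z k ω) 0) := by
    apply UB_of_nonneg_le (C := b)
    · exact Eventually.of_forall fun k => Finset.sum_nonneg fun ω _ =>
        mul_nonneg ((S.F k).nn ω) (le_max_right _ _)
    · filter_upwards [hz] with k hk
      exact sum_mul_le _ _ fun ω hω => max_le (by linarith [(hk ω hω).1]) hb
  apply le_of_forall_pos_le_add
  intro ε hε
  set j : ∀ k, (S.F k).Ω → ℕ := fun k ω => min ⌊zex y A z k ω / ε⌋₊ ⌊Cz / ε⌋₊ with hj
  set B : ℕ → ℝ := fun k => c0 * (K0 k + 1) with hB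
  have hBS : S.Sub B := (S.Sub_const (by positivity)).mul (hK0.add (S.Sub_const zero_le_one))
  set ρ : ∀ k, (S.F k).Ω → ℝ := fun k ω => max (b - zex y A z k ω) 0 + ε with hρ
  have hKS : S.Sub (fun k => 2 * D * ((2 + nw M D * Cu D) * B k * c1 + 2)) :=
    (S.Sub_const (by positivity)).mul ((((S.Sub_const (by positivity)).mul hBS).mul
      (S.Sub_const (by positivity))).add (S.Sub_const (by norm_num)))
  have hmain := CNT_gen (fun k => zc y z b k) (fun k => Setoid.ker (pc y z k)) E hE ρ (b + ε) (by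
      filter_upwards [hz] with k a1 ω hω
      have b1 := a1 ω hω
      have b2 : 0 ≤ max (b - zex y A z k ω) 0 := le_max_right _ _
      have b3 : max (b - zex y A z k ω) 0 ≤ b := max_le (by linarith) hb
      rw [hρ, abs_of_nonneg (by positivity)]
      linarith) j ⌊Cz / ε⌋₊ (Eventually.of_forall fun k ω _ => min_le_right _ _) _ hKS (by
      filter_upwards [hA, hZ, hφE, hz, hK0.1] with k a1 a2 a3 a4 a5 ω hω hEω T hT
      have hn := (S.F k).pos
      have hδ := S.dl_pos 1 k
      have hδb := S.dl_pos b k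
      have hBk : 1 ≤ B k := one_le_mul_of_one_le_of_one_le hc01 (by linarith)
      have hjj : ∀ ω, (S.F k).μ ω ≠ 0 → (j k ω : ℝ) * ε ≤ zex y A z k ω ∧ zex y A z k ω ≤ (j k ω : ℝ) * ε + ε := by
        intro ω hω
        have h1 : 0 ≤ zex y A z k ω / ε := div_nonneg (a4 ω hω).1 hε.le
        have h2 : zex y A z k ω / ε ≤ Cz / ε := div_le_div_of_nonneg_right (a4 ω hω).2 hε.le
        have h3 : j k ω = ⌊zex y A z k ω / ε⌋₊ := min_eq_left (Nat.floor_le_floor h2)
        have h7 := Nat.floor_le h1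
        have h8 := Nat.lt_floor_add_one (zex y A z k ω / ε)
        rw [← h3] at h7 h8
        rw [le_div_iff₀ hε] at h7
        rw [div_lt_iff₀ hε, add_mul, one_mul] at h8
        exact ⟨h7, h8.le⟩
      set G : ℝ := 2 ^ ((j k ω : ℝ) * ε * (S.F k).n) / c1 with hG
      have hG0 : 0 < G := by positivity
      have hAω := a1 ω hω
      set p : Fin M → ℝ := fun i => if i = z then 0 else y.v k ω i with hp
      have hlc := line_cells hD (S.dl 1 k) (A k ω) hAω.1 hAω.2.1 z p (by rw [hp]; simp) (B k) G (S.dl b k) hBk hG0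
        hδb T (by
        intro c hc
        obtain ⟨ω', h1, h2, h3, h4, h5, h6⟩ := hT c hc
        have h7 : A k ω' = A k ω := a2 ω' ω h1 hω h4
        refine ⟨y.v k ω' z, h6, ?_⟩
        set q : Fin M → ℝ := fun k' => p k' + y.v k ω' z * sgl z k' with hq
        have hqi : ∀ i, q i = if i = z then y.v k ω' z else y.v k ω i := by
          intro i
          have e3 : q i = if i = z then p z + y.v k ω' z else p i := ite_sgl z _ p i
          rw [e3]
          by_cases hi : i = z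
          · rw [if_pos hi, if_pos hi, hp]
            simp
          · rw [if_neg hi, if_neg hi, hp]
            simp [hi]
        have hqP : ∀ i, |q i - y.v k ω' i| ≤ S.dl 1 k := by
          intro i
          rw [hqi i]
          by_cases hi : i = z
          · rw [if_pos hi, hi, sub_self, abs_zero]
            exact hδ.le
          · rw [if_neg hi]
            have h8 : pc y z k ω' = pc y z k ω := h3
            have h9 := congrFun h8 i
            unfold pc at h9
            rw [if_neg hi, if_neg hi] at h9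
            have f1 := Int.floor_le (y.v k ω i / S.dl 1 k)
            have f2 := Int.lt_floor_add_one (y.v k ω i / S.dl 1 k)
            have f3 := Int.floor_le (y.v k ω' i / S.dl 1 k)
            have f4 := Int.lt_floor_add_one (y.v k ω' i / S.dl 1 k)
            rw [h9] at f3 f4
            rw [le_div_iff₀ hδ] at f1 f3
            rw [div_lt_iff₀ hδ] at f2 f4
            rw [abs_le]
            constructor <;> nlinarith
        have g3 := phi_comp (A k ω) hAω.pdM (S.dl 1 k) (S.dl 1 k) 2 hδ hδ.le (by norm_num) (y.v k ω') q (by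
          intro i
          have := hqP i
          linarith)
        have g4 := Jq_comp' (A k ω) hAω.pdM (S.dl 1 k) (S.dl 1 k) 2 hδ hδ.le (by norm_num) q (y.v k ω') (by
          intro i
          have := hqP i
          rw [abs_sub_comm] at this
          linarith) (sgl z)
        rw [sgl_Jq, sgl_Jq] at g4
        have g5 := a3 ω' h1 h2
        rw [h7] at g5
        have p1 := phi_nonneg (S.dl 1 k) hAω.psd.2 (y.v k ω')
        have p2 : 0 ≤ Jq (S.dl 1 k) (A k ω) q z z := by
          have := Jq_nonneg (S.dl 1 k) hAω.psd.2 q (sgl z)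
          rwa [sgl_Jq] at this
        have p3 : 0 ≤ Jq (S.dl 1 k) (A k ω) (y.v k ω') z z := by
          have := Jq_nonneg (S.dl 1 k) hAω.psd.2 (y.v k ω') (sgl z)
          rwa [sgl_Jq] at this
        constructor
        · have q1 : phi (S.dl 1 k) (A k ω) q ≤ c0 * K0 k := by
            refine g3.trans (mul_le_mul (by linarith) g5 p1 (by positivity))
          have q2 : c0 * K0 k ≤ B k := by
            show c0 * K0 k ≤ c0 * (K0 k + 1)
            exact mul_le_mul_of_nonneg_left (by linarith) (by positivity)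
          nlinarith
        · have q1 : (2 ^ ((j k ω : ℝ) * ε * (S.F k).n)) ^ 2 ≤ 1 + Jq (S.dl 1 k) (A k ω) (y.v k ω') z z := by
            have r1 := (hjj ω' h1).1
            rw [h5] at r1
            have r2 : zex y A z k ω' =
                Real.logb 2 (1 + Jq (S.dl 1 k) (A k ω) (y.v k ω') z z) / (2 * (S.F k).n) := by
              unfold zex
              rw [h7]
            rw [r2, le_div_iff₀ (by positivity)] at r1
            rw [← Real.rpow_natCast, ← Real.rpow_mul (by norm_num),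
              ← Real.le_logb_iff_rpow_le (by norm_num) (by linarith)]
            push_cast
            linarith
          have q2 : 1 + Jq (S.dl 1 k) (A k ω) (y.v k ω') z z ≤ c1 * (1 + Jq (S.dl 1 k) (A k ω) q z z) := by
            have : cQ M D * 2 ^ (2 * D) = c1 := rfl
            rw [this] at g4
            nlinarith
          rw [hG, div_pow, div_le_iff₀ (by positivity)]
          refine q1.trans (q2.trans ?_)
          rw [mul_comm]
          apply mul_le_mul_of_nonneg_left _ (by linarith)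
          nlinarith)
      refine hlc.trans ?_
      have hDn : (0 : ℝ) ≤ 2 * D := by positivity
      rw [mul_assoc (2 * (D : ℝ)) _ ((2 : ℝ) ^ _)]
      apply mul_le_mul_of_nonneg_left _ hDn
      have z1 := (hjj ω hω).2
      have hρω : 0 ≤ ρ k ω := add_nonneg (le_max_right _ _) hε.le
      have x1 : (1 : ℝ) ≤ 2 ^ (ρ k ω * (S.F k).n) := Real.one_le_rpow (by norm_num) (by positivity)
      have x2 : 1 / (G * S.dl b k) ≤ c1 * 2 ^ (ρ k ω * (S.F k).n) := by
        have e3 : 1 / (G * S.dl b k) = c1 * 2 ^ ((b - (j k ω : ℝ) * ε) * (S.F k).n) := by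
          have e4 : (2 : ℝ) ^ ((b - (j k ω : ℝ) * ε) * (S.F k).n) =
              2 ^ (b * (S.F k).n) * 2 ^ (-((j k ω : ℝ) * ε * (S.F k).n)) := by
            rw [← Real.rpow_add (by norm_num)]
            congr 1
            ring
          rw [e4, hG, dl_rpow, Real.rpow_neg (by norm_num) (b * (S.F k).n),
            Real.rpow_neg (by norm_num) ((j k ω : ℝ) * ε * (S.F k).n)]
          have y1 : (0 : ℝ) < 2 ^ (b * (S.F k).n) := by positivity
          have y2 : (0 : ℝ) < 2 ^ ((j k ω : ℝ) * ε * (S.F k).n) := by positivity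
          field_simp
        rw [e3]
        apply mul_le_mul_of_nonneg_left _ (by positivity)
        apply Real.rpow_le_rpow_of_exponent_le (by norm_num)
        apply mul_le_mul_of_nonneg_right _ hn.le
        show b - (j k ω : ℝ) * ε ≤ max (b - zex y A z k ω) 0 + ε
        have := le_max_left (b - zex y A z k ω) 0
        linarith
      have x3 : (2 + nw M D * Cu D) * B k / (G * S.dl b k) ≤
          (2 + nw M D * Cu D) * B k * (c1 * 2 ^ (ρ k ω * (S.F k).n)) := by
        have e3 : (2 + nw M D * Cu D) * B k / (G * S.dl b k) =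
            (2 + nw M D * Cu D) * B k * (1 / (G * S.dl b k)) := by ring
        rw [e3]
        exact mul_le_mul_of_nonneg_left x2 (by positivity)
      have x4 : (0 : ℝ) ≤ (2 + nw M D * Cu D) * B k * c1 := by positivity
      nlinarith) (2 * M) (zc_card y z b hb1)
  refine hmain.2.trans (le_of_eq ?_)
  have e2 : (fun k => ∑ ω, (S.F k).μ ω * ρ k ω) = fun k =>
      (∑ ω, (S.F k).μ ω * max (b - zex y A z k ω) 0) + ε := by
    funext k
    have h1 : ∀ ω, (S.F k).μ ω * ρ k ω = (S.F k).μ ω * max (b - zex y A z k ω) 0 + (S.F k).μ ω * ε := by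
      intro ω
      rw [hρ]
      ring
    have h2 : ∑ ω, (S.F k).μ ω = 1 := (S.F k).ms
    rw [Finset.sum_congr rfl fun ω _ => h1 ω, Finset.sum_add_distrib, ← Finset.sum_mul, h2, one_mul]
  rw [e2, ul_add hmU (UB_const _)]
  congr 1
  exact ul_eq tendsto_const_nhds

/-- a variable with few values has bounded rates -/
theorem rt_UB_card {α : ℕ → Type} (X : ∀ k, (S.F k).Ω → α k) (Zb : ∀ k, Setoid (S.F k).Ω) (C : ℝ) (hC : 0 ≤ C)
    (hB : ∀ᶠ k in UF, ∀ T : Finset (α k), (∀ a ∈ T, ∃ ω', (S.F k).μ ω' ≠ 0 ∧ X k ω' = a) →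
      (T.card : ℝ) ≤ 2 ^ (C * (S.F k).n)) : UB (S.rt (fun k => Setoid.ker (X k)) Zb) := by
  have h := CNT_gen X Zb (fun _ _ => False → True) (by
    have h1 : (fun k => mass (res (S.F k).μ (fun ω => ¬ (False → True)))) = fun _ => 0 := by
      funext k
      unfold mass
      apply Finset.sum_eq_zero
      intro ω _
      exact res_of_not _ _ _ (by simp)
    show Tendsto (fun k => mass (res (S.F k).μ (fun ω => ¬ (False → True)))) UF (𝓝 0)
    rw [h1]
    exact tendsto_const_nhds) (fun _ _ => C) C (Eventually.of_forall fun k ω _ => by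
      rw [abs_of_nonneg hC]) (fun _ _ => 0) 0 (Eventually.of_forall fun k ω _ => le_rfl)
    (fun _ => 1) (S.Sub_const zero_le_one) (by
      filter_upwards [hB] with k hk ω _ _ T hT
      rw [one_mul]
      apply hk T
      intro a ha
      obtain ⟨ω', h1, _, _, _, _, h2⟩ := hT a ha
      exact ⟨ω', h1, h2⟩) C hB
  exact h.1

/-! ### the label form -/

section lab

variable {κ : Type} {Q : S.VV M} {x : ∀ k, FD (S.F k) (Mon M D)}

theorem zx_UB' {A : κ → Part S} (hx : (gaq Q D).Adf A x) (z : Fin M) (b : ℝ) (hb : 0 ≤ b) :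
    UB (fun k => ∑ ω, (x k).l.T.μ ω * max (b - zx Q x z k ω) 0) := by
  obtain ⟨C, hC, h⟩ := zx_bd hx z
  apply UB_of_nonneg_le (C := b)
  · exact Eventually.of_forall fun k => Finset.sum_nonneg fun ω _ =>
      mul_nonneg ((x k).l.T.nn ω) (le_max_right _ _)
  · filter_upwards [h] with k hk
    exact sum_mul_le _ _ fun ω hω => max_le (by linarith [(hk ω hω).1]) hb

/-- THE FIBRE COUNT over the label of an admissible form -/
theorem fib_cz {A : κ → Part S} (hD : 1 ≤ D) (hx : (gaq Q D).Adf A x) (z : Fin M) (b : ℝ) (hb : 0 ≤ b)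
    (hb1 : b ≤ 1) : ul ((osp (lb x)).rt (fun k => Setoid.ker (zc (oQ (lb x) Q) z b k))
      (fun k => Setoid.ker (pc (oQ (lb x) Q) z k))) ≤
      ul (fun k => ∑ ω, (x k).l.T.μ ω * max (b - zx Q x z k ω) 0) := by
  set l : Lab S := lb x with hl
  obtain ⟨K, hK, hT⟩ := adf_sub hx
  obtain ⟨Cz, hCz, hzb⟩ := zx_bd hx z
  have hTsub : ∀ {L : ℕ → ℝ}, S.Sub L → (osp l).Sub L := fun hL => chg_sub l.V 1 one_pos ((sp_Sub l).mpr hL)
  have hA : ∀ᶠ k in UF, ∀ ω, ((osp l).F k).μ ω ≠ 0 →
      Cpd (2 ^ (((gaq Q D).C + 1) * ((osp l).F k).n)) ((fun k (ω : (x k).l.T.Ω) => (x k).g ω) k ω) := by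
    filter_upwards [hx 1 one_pos] with k hk ω hω
    rw [osp_n]
    exact (hk.2.1 ω hω).1
  have hZ : ∀ᶠ k in UF, ∀ ω ω', ((osp l).F k).μ ω ≠ 0 → ((osp l).F k).μ ω' ≠ 0 → ((osp l).F k).Z ω ω' →
      (fun k (ω : (x k).l.T.Ω) => (x k).g ω) k ω = (fun k (ω : (x k).l.T.Ω) => (x k).g ω) k ω' := by
    refine Eventually.of_forall fun k ω ω' a a' g => ?_
    exact ((x k).meas ω ω' a a' g.1 g.2).1
  have hzz : ∀ k ω, zex (S := osp l) (oQ l Q) (fun k (ω : (x k).l.T.Ω) => (x k).g ω) z k ω = zx Q x z k ω := by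
    intro k ω
    unfold zex zx
    rw [osp_dl, osp_n]
    rfl
  have hcnt := CNT_fb (S := osp l) hD (oQ l Q) z (fun k (ω : (x k).l.T.Ω) => (x k).g ω) ((gaq Q D).C + 1) hA hZ
    (fun k (ω : (x k).l.T.Ω) => (gaq Q D).φ k ((x k).l.p.π ω) ((x k).g ω) ≤ K k) hT K (hTsub hK) (by
      refine Eventually.of_forall fun k ω _ h2 => ?_
      rw [osp_dl]
      exact h2) Cz (by
      filter_upwards [hzb] with k hk ω hω
      rw [hzz]
      exact hk ω hω) b hb hb1
  have e3 : (fun k => ∑ ω, ((osp l).F k).μ ω *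
      max (b - zex (S := osp l) (oQ l Q) (fun k (ω : (x k).l.T.Ω) => (x k).g ω) z k ω) 0) =
      fun k => ∑ ω, (x k).l.T.μ ω * max (b - zx Q x z k ω) 0 := by
    funext k
    have h1 : ∀ ω, max (b - zex (S := osp l) (oQ l Q) (fun k (ω : (x k).l.T.Ω) => (x k).g ω) z k ω) 0 =
        max (b - zx Q x z k ω) 0 := fun ω => by rw [hzz]
    simp only [h1]
    rfl
  rw [e3] at hcnt
  exact hcnt

/-- THE FIBRE COUNT: the digits of the coordinate `z` up to level `b` over the digits of the other coordinates and the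
label of an admissible form -/
theorem fib_P {A : κ → Part S} (hD : 1 ≤ D) (hx : (gaq Q D).Adf A x) (z : Fin M) {M' : ℕ}
    (P : S.VV M') (hP : ∀ i, i ≠ z → ∃ j, ∀ k ω, P.v k ω j = Q.v k ω i) (y : S.VV 1)
    (hy : ∀ k ω, y.v k ω 0 = Q.v k ω z) (b : ℝ) (hb : 0 ≤ b) (hb1 : b ≤ 1) :
    h (up1 (lb x) (y.dg b)) (up1 (lb x) (P.dg 1)) ≤
      ul (fun k => ∑ ω, (x k).l.T.μ ω * max (b - zx Q x z k ω) 0) := by
  refine le_trans ?_ (fib_cz hD hx z b hb hb1)
  set l : Lab S := lb x with hl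
  rw [← u1_h, ← oQ_dg, ← oQ_dg]
  have h1 : h ((oQ l y).dg b) ((oQ l P).dg 1) =
      ul ((osp l).rt (fun k => Setoid.ker ((oQ l y).cellv b k)) (fun k => Setoid.ker ((oQ l P).cellv 1 k))) :=
    h_io ((oQ l y).bdd b) ((oQ l P).bdd 1)
  rw [h1]
  apply ul_mono (Sp.UB_rt ((oQ l y).bdd b).toInf _)
    (rt_UB_card (S := osp l) _ _ (2 * M) (by positivity) (zc_card (oQ l Q) z b hb1))
  refine Eventually.of_forall fun k => ?_
  have hn := ((osp l).F k).pos
  show ((osp l).F k).e _ _ / ((osp l).F k).n ≤ ((osp l).F k).e _ _ / ((osp l).F k).n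
  apply div_le_div_of_nonneg_right _ hn.le
  refine (FSp.e_mono _ ?_).trans (FSp.e_anti _ ?_)
  · intro ω ω' _ _ h4 _
    have h5 : zc (oQ l Q) z b k ω = zc (oQ l Q) z b k ω' := h4
    show (oQ l y).cellv b k ω = (oQ l y).cellv b k ω'
    funext j
    have hj : j = 0 := Subsingleton.elim _ _
    unfold zc at h5
    rw [oQ_v, oQ_v, ← hy, ← hy] at h5
    rw [hj]
    exact h5
  · intro ω ω' _ _ h4
    refine ⟨?_, h4.2⟩
    have h5 : (oQ l P).cellv 1 k ω = (oQ l P).cellv 1 k ω' := h4.1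
    show pc (oQ l Q) z k ω = pc (oQ l Q) z k ω'
    funext i
    unfold pc
    by_cases hi : i = z
    · rw [if_pos hi, if_pos hi]
    · obtain ⟨j, hj⟩ := hP i hi
      rw [if_neg hi, if_neg hi, oQ_v, oQ_v, ← hj, ← hj]
      exact congrFun h5 j

/-- the partition of the cells of level one of the coordinates other than `z` -/
def celP (Q : S.VV M) (z : Fin M) (k : ℕ) : Setoid (S.F k).Ω :=
  Setoid.ker (fun ω (j : {j : Fin M // j ≠ z}) => Q.cellv 1 k ω j.1)

/-- if the exponent of `1 + J_zz` is typically at least `b` (up to every `δ > 0`) then the digits of `z` up to level `b`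
are known over the label and the other coordinates -/
theorem fib_zero {A : κ → Part S} (hD : 1 ≤ D) (hx : (gaq Q D).Adf A x) (z : Fin M) {M' : ℕ}
    (P : S.VV M') (hP : ∀ i, i ≠ z → ∃ j, ∀ k ω, P.v k ω j = Q.v k ω i) (y : S.VV 1)
    (hy : ∀ k ω, y.v k ω 0 = Q.v k ω z) (b : ℝ) (hb : 0 ≤ b) (hb1 : b ≤ 1)
    (hz : ∀ δ : ℝ, 0 < δ → Sp.Typ (S := (lb x).sp) (fun k (ω : (x k).l.T.Ω) => b - δ ≤ zx Q x z k ω)) :
    h (up1 (lb x) (y.dg b)) (up1 (lb x) (P.dg 1)) = 0 := by
  classical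
  refine le_antisymm ?_ (h_nonneg _ _)
  refine (fib_P hD hx z P hP y hy b hb hb1).trans ?_
  apply le_of_forall_pos_le_add
  intro δ hδ
  rw [zero_add]
  have h1 : Tendsto (fun k => δ + b * (lb x k).T.pb (fun ω => ¬ (b - δ ≤ zx Q x z k ω))) UF (𝓝 (δ + b * 0)) :=
    tendsto_const_nhds.add (Tendsto.const_mul b (hz δ hδ))
  rw [mul_zero, add_zero] at h1
  refine (ul_mono (zx_UB' hx z b hb) (UB_of_tendsto h1) ?_).trans (le_of_eq (ul_eq h1))
  obtain ⟨C, hC, hzb⟩ := zx_bd hx z
  filter_upwards [hzb] with k hk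
  have h2 : ∀ ω, (x k).l.T.μ ω * max (b - zx Q x z k ω) 0 ≤
      (x k).l.T.μ ω * δ + b * res (x k).l.T.μ (fun ω => ¬ (b - δ ≤ zx Q x z k ω)) ω := by
    intro ω
    by_cases h0 : (x k).l.T.μ ω = 0
    · by_cases h5 : b - δ ≤ zx Q x z k ω
      · rw [res_neg _ (fun ω => ¬ (b - δ ≤ zx Q x z k ω)) ω (not_not.2 h5), h0]
        simp
      · rw [res_pos _ (fun ω => ¬ (b - δ ≤ zx Q x z k ω)) ω h5, h0]
        simp
    · have h3 := (hk ω h0).1
      have h4 := (x k).l.T.nn ω
      by_cases h5 : b - δ ≤ zx Q x z k ω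
      · rw [res_neg _ (fun ω => ¬ (b - δ ≤ zx Q x z k ω)) ω (not_not.2 h5), mul_zero, add_zero]
        exact mul_le_mul_of_nonneg_left (max_le (by linarith) hδ.le) h4
      · rw [res_pos _ (fun ω => ¬ (b - δ ≤ zx Q x z k ω)) ω h5]
        have h6 : max (b - zx Q x z k ω) 0 ≤ b := max_le (by linarith) hb
        nlinarith
  refine (Finset.sum_le_sum fun ω _ => h2 ω).trans ?_
  rw [Finset.sum_add_distrib, ← Finset.sum_mul, ← Finset.mul_sum]
  have h3 : ∑ ω, (x k).l.T.μ ω = 1 := (x k).l.T.ms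
  rw [h3, one_mul]
  exact le_of_eq rfl

end lab

end

end Pool.Agent.Helper4.VZ
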