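import Pool.Agent.Helper4.VZ.Fb

/-! THICKNESS of the fibres: a form is small on an interval of a line through the point of length about
`J(e, e)^{-1/2}` and not on a much longer one. -/

set_option autoImplicit false

namespace Pool.Agent.Helper4.VZ

open Finset Filter Topology MvPolynomial MeasureTheory Matrix Pool.Agent.Helper69.RK
open Pool.Agent.Helper31.EC Pool.Agent.Helper31.EC.Sp Pool.Agent.Helper95.LF Pool.Agent.Helper40.EL
open Pool.Agent.Helper3.LF Pool.Agent.Helper89.LX Pool.Agent.Helper84.MT Pool.Agent.Helper14.MC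
open Pool.Agent.Helper42.NS (osp u1 u1_dg u1_h osp_dl)

noncomputable section

section det

variable {M D : ℕ}

theorem eval_dir (p e : Fin M → ℝ) (q : MvPolynomial (Fin M) ℝ) :
    eval p (dir e q) = ∑ a, e a * eval p (pderiv a q) := by
  unfold dir
  rw [map_sum]
  exact Finset.sum_congr rfl fun a _ => by rw [map_mul, eval_C]

theorem Jq_rowq_e (r : ℝ) (C' : Matrix (Mon M D) (Mon M D) ℝ) (p e : Fin M → ℝ) :
    e ⬝ᵥ (Jq r (C'.transpose * C') p *ᵥ e) = ∑ w, (eval p (dir e (rowq r C' w))) ^ 2 := by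
  have h1 : ∀ w : Mon M D × (Fin M → Fin (D + 1)), (eval p (dir e (rowq r C' w))) ^ 2 =
      ∑ a, ∑ b, e a * (eval p (pderiv a (rowq r C' w)) * eval p (pderiv b (rowq r C' w)) * e b) := by
    intro w
    rw [eval_dir, pow_two, Finset.sum_mul_sum]
    refine Finset.sum_congr rfl fun a _ => Finset.sum_congr rfl fun b _ => ?_
    ring
  rw [Finset.sum_congr rfl fun w _ => h1 w, Finset.sum_comm]
  unfold dotProduct
  refine Finset.sum_congr rfl fun a _ => ?_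
  rw [Finset.sum_comm, Matrix.mulVec, dotProduct, Finset.mul_sum]
  refine Finset.sum_congr rfl fun b _ => ?_
  rw [Jq_rowq, Finset.sum_mul, Finset.mul_sum]

/-- the constant of the thickness -/
def cth (M D : ℕ) : ℝ := 4 * M + nw M D * Cu D ^ 2

theorem cth_nonneg (M D : ℕ) : 0 ≤ cth M D := by
  unfold cth
  positivity

/-- a form is small on no interval much longer than `(|e|^2 + J(e, e))^{-1/2}` -/
theorem thk_low (hD : 1 ≤ D) (r : ℝ) (A : Matrix (Mon M D) (Mon M D) ℝ) (hs : A.IsSymm)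
    (h1 : ∀ x : Mon M D → ℝ, x ⬝ᵥ x ≤ x ⬝ᵥ (A *ᵥ x)) (p e : Fin M → ℝ) (K a b : ℝ) (hab : a < b) (ha : a ≤ 0)
    (hb : 0 ≤ b) (hK : 0 ≤ K) (h : ∀ t, a ≤ t → t ≤ b → phi r A (fun k => p k + t * e k) ≤ K ^ 2) :
    (b - a) ^ 2 * (e ⬝ᵥ e + e ⬝ᵥ (Jq r A p *ᵥ e)) ≤ cth M D * K ^ 2 := by
  classical
  have hA : PdM A := pdM_of_one_le hs h1
  obtain ⟨C', hC, -⟩ := exists_factor A hA
  have hCu := Cu_one D
  have hrow : ∀ (w : Mon M D × (Fin M → Fin (D + 1))) (t : ℝ), a ≤ t → t ≤ b →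
      |(lnp p e (rowq r C' w)).eval t| ≤ K := by
    intro w t h2 h3
    have h4 := h t h2 h3
    rw [hC, phi_rowq] at h4
    have h5 : (eval (fun k => p k + t * e k) (rowq r C' w)) ^ 2 ≤
        ∑ w, (eval (fun k => p k + t * e k) (rowq r C' w)) ^ 2 :=
      Finset.single_le_sum (f := fun w => (eval (fun k => p k + t * e k) (rowq r C' w)) ^ 2)
        (fun _ _ => sq_nonneg _) (Finset.mem_univ w)
    rw [lnp_eval]
    exact abs_le_of_sq_le_sq (h5.trans h4) hK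
  have hm : ∀ w : Mon M D × (Fin M → Fin (D + 1)), (b - a) * |eval p (dir e (rowq r C' w))| ≤ Cu D * K := by
    intro w
    have h2 := markov D (lnp p e (rowq r C' w)) ((lnp_deg _ _ _).trans (rowq_deg r C' w)) a b K 0 hab ha hb
      (hrow w)
    rw [lnp_deriv, lnp_eval] at h2
    have e1 : (fun k => p k + 0 * e k) = p := by funext k; ring
    rw [e1] at h2
    exact h2
  have hJ : (b - a) ^ 2 * (e ⬝ᵥ (Jq r A p *ᵥ e)) ≤ nw M D * (Cu D * K) ^ 2 := by
    rw [hC, Jq_rowq_e, Finset.mul_sum]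
    have h2 : ∀ w ∈ (Finset.univ : Finset (Mon M D × (Fin M → Fin (D + 1)))),
        (b - a) ^ 2 * (eval p (dir e (rowq r C' w))) ^ 2 ≤ (Cu D * K) ^ 2 := by
      intro w _
      rw [← sq_abs (eval p (dir e (rowq r C' w))), ← mul_pow]
      exact pow_le_pow_left₀ (mul_nonneg (by linarith) (abs_nonneg _)) (hm w) 2
    refine (Finset.sum_le_sum h2).trans ?_
    rw [Finset.sum_const, Finset.card_univ, nsmul_eq_mul]
    exact le_rfl
  have hE : (b - a) ^ 2 * (e ⬝ᵥ e) ≤ 4 * M * K ^ 2 := by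
    unfold dotProduct
    rw [Finset.mul_sum]
    have h2 : ∀ i ∈ (Finset.univ : Finset (Fin M)), (b - a) ^ 2 * (e i * e i) ≤ 4 * K ^ 2 := by
      intro i _
      have h3 := (coord_le_phi hD r A h1 (fun k => p k + a * e k) i).trans (h a le_rfl hab.le)
      have h4 := (coord_le_phi hD r A h1 (fun k => p k + b * e k) i).trans (h b hab.le le_rfl)
      have h5 : (b - a) ^ 2 * (e i * e i) = ((p i + b * e i) - (p i + a * e i)) ^ 2 := by ring
      rw [h5]
      nlinarith [sq_nonneg ((p i + b * e i) + (p i + a * e i))]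
    refine (Finset.sum_le_sum h2).trans ?_
    rw [Finset.sum_const, Finset.card_univ, nsmul_eq_mul, Fintype.card_fin]
    linarith
  have h2 : cth M D * K ^ 2 = 4 * M * K ^ 2 + nw M D * (Cu D * K) ^ 2 := by
    unfold cth
    ring
  rw [h2, mul_add]
  exact add_le_add hE hJ

end det

variable {S : Sp} {M D : ℕ} {κ : Type} {Q : S.VV M} {x : ∀ k, FD (S.F k) (Mon M D)}

theorem zx_pow {A : κ → Part S} (hx : (gaq Q D).Adf A x) (z : Fin M) : ∀ᶠ k in UF,
    ∀ ω, (x k).l.T.μ ω ≠ 0 → 2 ^ (2 * zx Q x z k ω * (S.F k).n) =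
      1 + Jq (S.dl 1 k) ((x k).g ω) (Q.v k ((x k).l.p.π ω)) z z := by
  filter_upwards [je_one_le hx] with k hd ω hω
  have hn := (S.F k).pos
  have h1 := hd ω hω (fun _ _ => sgl z)
  have hje : je Q x (fun _ _ => sgl z) k ω = 1 + Jq (S.dl 1 k) ((x k).g ω) (Q.v k ((x k).l.p.π ω)) z z := by
    unfold je
    rw [sgl_Jq]
  rw [hje] at h1
  have h2 : 2 * zx Q x z k ω * (S.F k).n =
      Real.logb 2 (1 + Jq (S.dl 1 k) ((x k).g ω) (Q.v k ((x k).l.p.π ω)) z z) := by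
    unfold zx
    field_simp
  rw [h2, Real.rpow_logb (by norm_num) (by norm_num) (by linarith)]

/-- THICKNESS, upper half: for every point of the label, every interval of the fibre around the point on which the form
is at most `K ^ 2` has length at most `c K 2 ^ (- η_z n)` -/
theorem thk_len {A : κ → Part S} (hD : 1 ≤ D) (hx : (gaq Q D).Adf A x) (z : Fin M) : ∀ᶠ k in UF,
    ∀ ω, (x k).l.T.μ ω ≠ 0 → ∀ K a b : ℝ, a < b → a ≤ 0 → 0 ≤ b → 0 ≤ K →
      (∀ t, a ≤ t → t ≤ b → phi (S.dl 1 k) ((x k).g ω) (fun i => Q.v k ((x k).l.p.π ω) i + t * sgl z i) ≤ K ^ 2) →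
      (b - a) ^ 2 * 2 ^ (2 * zx Q x z k ω * (S.F k).n) ≤ cth M D * K ^ 2 := by
  filter_upwards [hx 1 one_pos, zx_pow hx z] with k h1 h2 ω hω K a b hab ha hb hK h
  have hA := (h1.2.1 ω hω).1
  have h3 := thk_low hD (S.dl 1 k) ((x k).g ω) hA.1 hA.2.1 (Q.v k ((x k).l.p.π ω)) (sgl z) K a b hab ha hb hK h
  have h4 : sgl z ⬝ᵥ sgl z = 1 := by
    unfold sgl
    rw [single_one_dotProduct, Pi.single_eq_same]
  rw [h4, sgl_Jq] at h3
  rw [h2 ω hω]
  exact h3

theorem exp_two_le : Real.exp 2 ≤ 9 := by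
  have h1 := Real.exp_one_lt_d9
  have h2 : Real.exp 2 = Real.exp 1 * Real.exp 1 := by
    rw [← Real.exp_add]
    norm_num
  rw [h2]
  have h3 := Real.exp_pos 1
  nlinarith

/-- THICKNESS, lower half: typically the optimal form, its derivatives and its density are within constants of their
values at the point on the interval of length `2 ^ (- (η_z + ε) n)` of the fibre around the point -/
theorem thk_in [Finite κ] {A : κ → Part S} (hx : (gaq Q D).Optf A x) (z : Fin M) (ε : ℝ) (hε : 0 < ε) :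
    Sp.Typ (S := (lb x).sp) (fun k (ω : (x k).l.T.Ω) => ∀ t : ℝ, |t| ≤ 2 ^ (-((zx Q x z k ω + ε) * (S.F k).n)) →
      phi (S.dl 1 k) ((x k).g ω) (fun i => Q.v k ((x k).l.p.π ω) i + t * sgl z i) ≤
        9 * phi (S.dl 1 k) ((x k).g ω) (Q.v k ((x k).l.p.π ω)) ∧
      (∀ f : Fin M → ℝ,
        f ⬝ᵥ (Jq (S.dl 1 k) ((x k).g ω) (fun i => Q.v k ((x k).l.p.π ω) i + t * sgl z i) *ᵥ f) ≤
          9 * (f ⬝ᵥ (Jq (S.dl 1 k) ((x k).g ω) (Q.v k ((x k).l.p.π ω)) *ᵥ f)) ∧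
        f ⬝ᵥ (Jq (S.dl 1 k) ((x k).g ω) (Q.v k ((x k).l.p.π ω)) *ᵥ f) ≤
          9 * (f ⬝ᵥ (Jq (S.dl 1 k) ((x k).g ω) (fun i => Q.v k ((x k).l.p.π ω) i + t * sgl z i) *ᵥ f))) ∧
      GQ (S.dl 1 k) ((x k).g ω) (fun i => Q.v k ((x k).l.p.π ω) i + t * sgl z i) ≤
        9 ^ M * GQ (S.dl 1 k) ((x k).g ω) (Q.v k ((x k).l.p.π ω)) ∧
      GQ (S.dl 1 k) ((x k).g ω) (Q.v k ((x k).l.p.π ω)) ≤
        9 ^ M * GQ (S.dl 1 k) ((x k).g ω) (fun i => Q.v k ((x k).l.p.π ω) i + t * sgl z i)) := by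
  have hdm := dom_typ hx (fun _ _ => sgl z) (fun k ω ω' _ _ _ _ => rfl) (fun _ => 1) (S.Sub_const zero_le_one)
    (Eventually.of_forall fun k ω _ => by
      unfold sgl
      rw [single_one_dotProduct, Pi.single_eq_same]) ε hε
  refine typ_mono hdm ?_
  filter_upwards [hx.1 1 one_pos] with k hk ω hω h t ht
  have hA := (hk.2.1 ω hω).1
  rw [zx_ee] at h
  set L : ℝ := 2 ^ ((zx Q x z k ω + ε) * (S.F k).n) with hL
  have hL0 : 0 < L := by positivity
  have hLt : 2 * L * |t| ≤ 2 := by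
    rw [Real.rpow_neg (by norm_num), ← hL, ← one_div, le_div_iff₀ hL0] at ht
    linarith
  have hE : Real.exp (2 * L * |t|) ≤ 9 := (Real.exp_le_exp.2 hLt).trans exp_two_le
  have hE0 := Real.exp_pos (2 * L * |t|)
  have hJ0 : ∀ (q f : Fin M → ℝ), 0 ≤ f ⬝ᵥ (Jq (S.dl 1 k) ((x k).g ω) q *ᵥ f) :=
    fun q f => Jq_nonneg (S.dl 1 k) hA.psd.2 q f
  have hG0 : ∀ q : Fin M → ℝ, 0 ≤ GQ (S.dl 1 k) ((x k).g ω) q := fun q => by
    have := one_le_GQ (S.dl 1 k) hA.1 hA.psd.2 q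
    linarith
  refine ⟨?_, ?_, ?_, ?_⟩
  · exact (phi_line_le hA.1 hA.psd.2 hL0 h (S.dl 1 k) _ t).trans
      (mul_le_mul_of_nonneg_right hE (phi_nonneg (S.dl 1 k) hA.psd.2 _))
  · intro f
    constructor
    · exact (Jq_line_le hA.1 hA.psd.2 hL0 h (S.dl 1 k) _ f t).trans (mul_le_mul_of_nonneg_right hE (hJ0 _ f))
    · have h1 := Jq_line_le hA.1 hA.psd.2 hL0 h (S.dl 1 k)
        (fun i => Q.v k ((x k).l.p.π ω) i + t * sgl z i) f (-t)
      have e1 : (fun i => Q.v k ((x k).l.p.π ω) i + t * sgl z i + -t * sgl z i) = Q.v k ((x k).l.p.π ω) := by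
        funext i
        ring
      rw [e1, abs_neg] at h1
      exact h1.trans (mul_le_mul_of_nonneg_right hE (hJ0 _ f))
  · exact (GQ_line_le hA.1 hA.psd.2 hL0 h (S.dl 1 k) _ t).trans
      (mul_le_mul_of_nonneg_right (pow_le_pow_left₀ hE0.le hE M) (hG0 _))
  · exact (GQ_line_ge hA.1 hA.psd.2 hL0 h (S.dl 1 k) _ t).trans
      (mul_le_mul_of_nonneg_right (pow_le_pow_left₀ hE0.le hE M) (hG0 _))

end

end Pool.Agent.Helper4.VZ
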