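import Pool.Agent.Helper4.VZ.Cg
import Pool.Agent.Helper4.VZ.Fib
import Pool.Agent.Helper4.VZ.Tm

/-! VOLZ: count of the cells of level one of the coordinates other than `z` and of level `b` of the coordinate `z`, for
forms which dominate their derivative with respect to `z`. -/

set_option autoImplicit false

namespace Pool.Agent.Helper4.VZ

open Finset Filter Topology MvPolynomial MeasureTheory Matrix Pool.Agent.Helper69.RK
open Pool.Agent.Helper31.EC Pool.Agent.Helper31.EC.Sp Pool.Agent.Helper95.LF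
open Pool.Agent.Helper3.LF Pool.Agent.Helper89.LX Pool.Agent.Helper84.MT Pool.Agent.Helper14.MC

noncomputable section

variable {S : Sp} {M D : ℕ}

/-- the coordinate vector -/
def sgl (z : Fin M) : Fin M → ℝ := Pi.single z 1

theorem sgl_Jq (z : Fin M) (N : Matrix (Fin M) (Fin M) ℝ) : sgl z ⬝ᵥ (N *ᵥ sgl z) = N z z := by
  unfold sgl
  rw [Matrix.mulVec_single_one, single_one_dotProduct]
  rfl

/-- cells: level one for the coordinates other than `z`, level `b` for `z` -/
def cz (y : S.VV M) (z : Fin M) (b : ℝ) (k : ℕ) (ω : (S.F k).Ω) : Fin M → ℤ :=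
  fun i => ⌊y.v k ω i / (if i = z then S.dl b k else S.dl 1 k)⌋

/-- the exponent of `1 + J_zz` -/
def zex (y : S.VV M) (A : ∀ k, (S.F k).Ω → Matrix (Mon M D) (Mon M D) ℝ) (z : Fin M) (k : ℕ) (ω : (S.F k).Ω) : ℝ :=
  Real.logb 2 (1 + Jq (S.dl 1 k) (A k ω) (y.v k ω) z z) / (2 * (S.F k).n)

theorem dl_rpow (S : Sp) (r : ℝ) (k : ℕ) : S.dl r k = 2 ^ (-(r * (S.F k).n)) := rfl

/-- all values -/
theorem cz_card (y : S.VV M) (z : Fin M) (b : ℝ) (hb1 : b ≤ 1) : ∀ᶠ k in UF,
    ∀ T : Finset (Fin M → ℤ), (∀ a ∈ T, ∃ ω', (S.F k).μ ω' ≠ 0 ∧ cz y z b k ω' = a) →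
      (T.card : ℝ) ≤ 2 ^ (2 * M * (S.F k).n) := by
  obtain ⟨K, hK, hb'⟩ := y.bd
  have hs : S.Sub (fun k => 7 * (K k + 1)) := (S.Sub_const (by norm_num)).mul (hK.add (S.Sub_const zero_le_one))
  filter_upwards [hb', hs.eventually_le one_pos, hK.1] with k h1 h2 h3 T hT
  have hn := (S.F k).pos
  have hδ := S.dl_pos 1 k
  have hδ1 := dl_one_le S k
  have hδb : S.dl 1 k ≤ S.dl b k := S.dl_anti hb1 k
  have hδb0 := S.dl_pos b k
  have hR : 1 ≤ (K k + 1) / S.dl 1 k := by
    rw [le_div_iff₀ hδ]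
    linarith
  have h4 := card_box T (⌈(K k + 1) / S.dl 1 k⌉₊ + 1) (by
    intro a ha i
    obtain ⟨ω', h5, rfl⟩ := hT a ha
    have h6 := h1 ω' h5 i
    set d : ℝ := if i = z then S.dl b k else S.dl 1 k with hd
    have hd0 : 0 < d := by rw [hd]; split_ifs <;> assumption
    have hd1 : S.dl 1 k ≤ d := by rw [hd]; split_ifs; exacts [hδb, le_rfl]
    have h7 : |y.v k ω' i / d| ≤ (K k + 1) / S.dl 1 k := by
      rw [abs_div, abs_of_pos hd0]
      exact div_le_div₀ (by linarith) (by linarith) hδ hd1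
    have h8 : cz y z b k ω' i = ⌊y.v k ω' i / d⌋ := rfl
    have h9 := Int.floor_le (y.v k ω' i / d)
    have h10 := Int.lt_floor_add_one (y.v k ω' i / d)
    have h11 := Nat.le_ceil ((K k + 1) / S.dl 1 k)
    rw [h8]
    push_cast
    rw [abs_le] at h7 ⊢
    constructor
    · linarith [h7.1]
    · linarith [h7.2])
  have h5 : (2 : ℝ) ^ (2 * M * (S.F k).n) = (2 ^ (2 * (S.F k).n)) ^ M := by
    rw [← Real.rpow_natCast, ← Real.rpow_mul (by norm_num)]
    congr 1
    ring
  rw [h5]
  refine h4.trans (pow_le_pow_left₀ (by positivity) ?_ M)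
  have h6 := Nat.ceil_lt_add_one (a := (K k + 1) / S.dl 1 k) (by linarith)
  have h7 : 7 * ((K k + 1) / S.dl 1 k) ≤ 2 ^ (2 * (S.F k).n) := by
    have e1 : 7 * ((K k + 1) / S.dl 1 k) = 7 * (K k + 1) * 2 ^ ((S.F k).n) := by
      rw [← inv_dl_one]
      ring
    rw [e1]
    have e2 : (2 : ℝ) ^ (2 * (S.F k).n) = 2 ^ (1 * (S.F k).n) * 2 ^ ((S.F k).n) := by
      rw [← Real.rpow_add (by norm_num)]
      congr 1
      ring
    rw [e2]
    exact mul_le_mul_of_nonneg_right (by linarith) (by positivity)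
  push_cast
  linarith

theorem ite_sgl (z : Fin M) (t : ℝ) (p : Fin M → ℝ) (i : Fin M) :
    (fun k => p k + t * sgl z k) i = if i = z then p z + t else p i := by
  unfold sgl
  by_cases h : i = z
  · rw [if_pos h, h]
    simp
  · rw [if_neg h]
    simp [h]

/-- THE COUNT -/
theorem CNT_vz (hD : 1 ≤ D) (y : S.VV M) (z : Fin M)
    (A : ∀ k, (S.F k).Ω → Matrix (Mon M D) (Mon M D) ℝ) (C : ℝ) (hC : 0 ≤ C)
    (hA : ∀ᶠ k in UF, ∀ ω, (S.F k).μ ω ≠ 0 → Cpd (2 ^ (C * (S.F k).n)) (A k ω))
    (hZ : ∀ᶠ k in UF, ∀ ω ω', (S.F k).μ ω ≠ 0 → (S.F k).μ ω' ≠ 0 → (S.F k).Z ω ω' → A k ω = A k ω')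
    (E : ∀ k, (S.F k).Ω → Prop) (hE : Typ E) (K0 : ℕ → ℝ) (hK0 : S.Sub K0)
    (hφE : ∀ᶠ k in UF, ∀ ω, (S.F k).μ ω ≠ 0 → E k ω → phi (S.dl 1 k) (A k ω) (y.v k ω) ≤ K0 k)
    (τ : ∀ k, (S.F k).Ω → ℝ) (Cτ : ℝ) (hτ : ∀ᶠ k in UF, ∀ ω, (S.F k).μ ω ≠ 0 → 0 ≤ τ k ω ∧ τ k ω ≤ Cτ)
    (hdm : ∀ᶠ k in UF, ∀ ω, (S.F k).μ ω ≠ 0 → E k ω → Dmv (A k ω) (sgl z) (2 ^ (τ k ω * (S.F k).n)))
    (b : ℝ) (hb : 0 ≤ b) (hb1 : b ≤ 1) :
    ul (S.rt (fun k => Setoid.ker (cz y z b k)) S.tr) ≤
      M - 1 - ul (fun k => ∑ ω, (S.F k).μ ω * gexq y A k ω) + ul (fun k => ∑ ω, (S.F k).μ ω * max (τ k ω) b) := by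
  have hg0 := gexq_nonneg y A C hA
  have hg1 := gexq_bd y A C hC hA
  have hgU := gexq_UB y A C hC hA
  have hCu := Cu_one D
  have hCm := Cm_one M D
  have hnn := nn_one M D
  have hcQ := cQ_one M D
  have hav := avC_pos M D
  set c0 : ℝ := nn M D * (Cu D * Cm M D * 2 ^ D) ^ 2 + cQ M D ^ M * 2 ^ (2 * D * M) with hc0
  have hc01 : 1 ≤ c0 := by
    have h1 : 1 ≤ cQ M D ^ M * 2 ^ (2 * D * M) :=
      one_le_mul_of_one_le_of_one_le (one_le_pow₀ hcQ) (one_le_pow₀ (by norm_num))
    have h2 : 0 ≤ nn M D * (Cu D * Cm M D * 2 ^ D) ^ 2 := by positivity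
    linarith
  set e1 : ℝ := Real.exp 1 with he1
  have he11 : 1 ≤ e1 := Real.one_le_exp zero_le_one
  -- the average of the thickness
  have hmU : UB (fun k => ∑ ω, (S.F k).μ ω * max (τ k ω) b) := by
    apply UB_of_nonneg_le (C := max Cτ b)
    · filter_upwards [hτ] with k hk
      exact Finset.sum_nonneg fun ω _ => mul_nonneg ((S.F k).nn ω) (le_max_of_le_right hb)
    · filter_upwards [hτ] with k hk
      exact sum_mul_le _ _ fun ω hω => max_le_max (hk ω hω).2 le_rfl
  apply le_of_forall_pos_le_add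
  intro ε' hε'
  set ε : ℝ := ε' / 2 with hεd
  have hε : 0 < ε := by positivity
  set C1 : ℝ := (C + 3) * M with hC1
  have hC10 : 0 ≤ C1 := by positivity
  set j1 : ∀ k, (S.F k).Ω → ℕ := fun k ω => min ⌊gexq y A k ω / ε⌋₊ ⌊C1 / ε⌋₊ with hj1
  set j2 : ∀ k, (S.F k).Ω → ℕ := fun k ω => min ⌊τ k ω / ε⌋₊ ⌊Cτ / ε⌋₊ with hj2
  set J : ℕ := (max ⌊C1 / ε⌋₊ ⌊Cτ / ε⌋₊ + 1) ^ 2 with hJ
  set B : ℕ → ℝ := fun k => c0 * e1 ^ (M + 1) * (K0 k + 1) with hB
  have hBS : S.Sub B := (S.Sub_const (by positivity)).mul (hK0.add (S.Sub_const zero_le_one))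
  set ρ : ∀ k, (S.F k).Ω → ℝ := fun k ω => M - 1 - gexq y A k ω + max (τ k ω) b + 2 * ε with hρ
  have hKS : S.Sub (fun k => avC M D * B k ^ (M + 1) * 2) :=
    ((S.Sub_const hav.le).mul (Sub_powN hBS (M + 1))).mul (S.Sub_const (by norm_num))
  have hmain := CNT_gen (fun k => cz y z b k) S.tr E hE ρ (M + 1 + C1 + max Cτ b + 2 * ε) (by
      filter_upwards [hg0, hg1, hτ] with k a1 a2 a3 ω hω
      have b1 := a1 ω hω
      have b2 := a2 ω hω
      have b3 := a3 ω hω
      have b4 : max (τ k ω) b ≤ max Cτ b := max_le_max b3.2 le_rfl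
      have b5 : 0 ≤ max (τ k ω) b := le_max_of_le_right hb
      have b6 : (0 : ℝ) ≤ M := Nat.cast_nonneg M
      rw [hρ, abs_le]
      constructor
      · dsimp only
        linarith
      · dsimp only
        linarith) (fun k ω => Nat.pair (j1 k ω) (j2 k ω)) J (by
      refine Eventually.of_forall fun k ω _ => ?_
      have h1 := Nat.pair_lt_max_add_one_sq (j1 k ω) (j2 k ω)
      have h2 : max (j1 k ω) (j2 k ω) + 1 ≤ max ⌊C1 / ε⌋₊ ⌊Cτ / ε⌋₊ + 1 :=
        Nat.add_le_add_right (max_le_max (min_le_right _ _) (min_le_right _ _)) 1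
      exact (h1.trans_le (Nat.pow_le_pow_left h2 2)).le) _ hKS (by
      filter_upwards [hA, hZ, hφE, hτ, hdm, hg0, hg1, hK0.1] with k a1 a2 a3 a4 a5 a6 a7 a8 ω hω hEω T hT
      have hn := (S.F k).pos
      have hδ := S.dl_pos 1 k
      have hδ1 := dl_one_le S k
      have hδb := S.dl_pos b k
      have hBk : 1 ≤ B k := by
        have h1 : (1 : ℝ) ≤ e1 ^ (M + 1) := one_le_pow₀ he11
        have h2 : 1 ≤ c0 * e1 ^ (M + 1) := one_le_mul_of_one_le_of_one_le hc01 h1
        exact one_le_mul_of_one_le_of_one_le h2 (by linarith)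
      have hjj : ∀ ω, (S.F k).μ ω ≠ 0 → (j1 k ω : ℝ) * ε ≤ gexq y A k ω ∧ gexq y A k ω ≤ (j1 k ω : ℝ) * ε + ε ∧
          (j2 k ω : ℝ) * ε ≤ τ k ω ∧ τ k ω ≤ (j2 k ω : ℝ) * ε + ε := by
        intro ω hω
        have h1 : 0 ≤ gexq y A k ω / ε := div_nonneg (a6 ω hω) hε.le
        have h2 : gexq y A k ω / ε ≤ C1 / ε := div_le_div_of_nonneg_right (a7 ω hω) hε.le
        have h3 : j1 k ω = ⌊gexq y A k ω / ε⌋₊ := min_eq_left (Nat.floor_le_floor h2)
        have h4 : 0 ≤ τ k ω / ε := div_nonneg (a4 ω hω).1 hε.le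
        have h5 : τ k ω / ε ≤ Cτ / ε := div_le_div_of_nonneg_right (a4 ω hω).2 hε.le
        have h6 : j2 k ω = ⌊τ k ω / ε⌋₊ := min_eq_left (Nat.floor_le_floor h5)
        have h7 := Nat.floor_le h1
        have h8 := Nat.lt_floor_add_one (gexq y A k ω / ε)
        have h9 := Nat.floor_le h4
        have h10 := Nat.lt_floor_add_one (τ k ω / ε)
        rw [← h3] at h7 h8
        rw [← h6] at h9 h10
        rw [le_div_iff₀ hε] at h7 h9
        rw [div_lt_iff₀ hε, add_mul, one_mul] at h8 h10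
        exact ⟨h7, h8.le, h9, h10.le⟩
      -- the width
      set m : ℝ := max ((j2 k ω : ℝ) * ε + ε) b with hm
      set w : ℝ := 2 ^ (-(m * (S.F k).n)) / 2 with hw
      have hw0 : 0 < w := by positivity
      have hw1 : 2 * w ≤ S.dl b k := by
        have e2 : 2 * w = 2 ^ (-(m * (S.F k).n)) := by rw [hw]; ring
        rw [e2, dl_rpow]
        apply Real.rpow_le_rpow_of_exponent_le (by norm_num)
        have : b ≤ m := le_max_right _ _
        nlinarith
      set g : ℝ := 2 ^ ((j1 k ω : ℝ) * ε * (S.F k).n) / B k with hg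
      have hgpos : 0 < g := by positivity
      have hAω := a1 ω hω
      have hvol := vol_form hD (S.dl 1 k) (A k ω) hAω.1 hAω.2.1 (B k) g (by linarith) hgpos
      have hbox := box_cells z (S.dl 1 k) (S.dl b k) w (avC M D * B k ^ M / g) hδ hδb hw0 hw1 (by positivity) T _ hvol (by
        intro a ha
        obtain ⟨ω', h1, h2, _, h3, h4, rfl⟩ := hT a ha
        have h5 : j1 k ω' = j1 k ω ∧ j2 k ω' = j2 k ω := Nat.pair_eq_pair.1 h4
        have h6 : A k ω' = A k ω := a2 ω' ω h1 hω h3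
        refine ⟨y.v k ω', ?_, ?_, ?_⟩
        · intro i hi
          unfold cz
          rw [if_neg hi]
        · unfold cz
          rw [if_pos rfl]
        · intro P hP hPz
          set t : ℝ := P z - y.v k ω' z with ht
          set q : Fin M → ℝ := fun k' => y.v k ω' k' + t * sgl z k' with hq
          have hqP : ∀ i, |P i - q i| ≤ S.dl 1 k := by
            intro i
            have e3 : q i = if i = z then y.v k ω' z + t else y.v k ω' i := ite_sgl z t (y.v k ω') i
            rw [e3]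
            by_cases hi : i = z
            · rw [if_pos hi, hi, ht]
              have e4 : P z - (y.v k ω' z + (P z - y.v k ω' z)) = 0 := by ring
              rw [e4, abs_zero]
              exact hδ.le
            · rw [if_neg hi]
              exact hP i hi
          -- the growth along the line
          have hL0 : (0 : ℝ) < 2 ^ (τ k ω' * (S.F k).n) := by positivity
          have hdm' := a5 ω' h1 h2
          rw [h6] at hdm'
          have hLt : 2 * 2 ^ (τ k ω' * (S.F k).n) * |t| ≤ 1 := by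
            have e3 := (hjj ω' h1).2.2.2
            rw [h5.2] at e3
            have e4 : τ k ω' ≤ m := e3.trans (le_max_left _ _)
            have e5 : (2 : ℝ) ^ (τ k ω' * (S.F k).n) ≤ 2 ^ (m * (S.F k).n) :=
              Real.rpow_le_rpow_of_exponent_le (by norm_num) (mul_le_mul_of_nonneg_right e4 hn.le)
            have e6 : 2 * 2 ^ (m * (S.F k).n) * w = 1 := by
              rw [hw, Real.rpow_neg (by norm_num)]
              field_simp
            calc 2 * 2 ^ (τ k ω' * (S.F k).n) * |t| ≤ 2 * 2 ^ (m * (S.F k).n) * w :=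
                  mul_le_mul (by linarith) hPz (abs_nonneg _) (by positivity)
              _ = 1 := e6
          have hexp : Real.exp (2 * 2 ^ (τ k ω' * (S.F k).n) * |t|) ≤ e1 := Real.exp_le_exp.2 hLt
          have g1 := phi_line_le hAω.1 hAω.psd.2 hL0 hdm' (S.dl 1 k) (y.v k ω') t
          have g2 := GQ_line_ge hAω.1 hAω.psd.2 hL0 hdm' (S.dl 1 k) (y.v k ω') t
          have g3 := phi_comp (A k ω) hAω.pdM (S.dl 1 k) (S.dl 1 k) 2 hδ hδ.le (by norm_num) q P (by
            intro i
            have := hqP i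
            linarith)
          have g4 := GQ_comp (A k ω) hAω.pdM (S.dl 1 k) (S.dl 1 k) 2 hδ hδ.le (by norm_num) P q (by
            intro i
            have := hqP i
            rw [abs_sub_comm] at this
            linarith)
          have g5 := a3 ω' h1 h2
          rw [h6] at g5
          have p1 := phi_nonneg (S.dl 1 k) hAω.psd.2 (y.v k ω')
          have p2 := phi_nonneg (S.dl 1 k) hAω.psd.2 q
          have p3 := one_le_GQ (S.dl 1 k) hAω.1 hAω.psd.2 q
          have p4 := one_le_GQ (S.dl 1 k) hAω.1 hAω.psd.2 P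
          have c1 : nn M D * (Cu D * Cm M D * 2 ^ D) ^ 2 ≤ c0 := by
            have : 0 ≤ cQ M D ^ M * 2 ^ (2 * D * M) := by positivity
            linarith
          have c2 : cQ M D ^ M * 2 ^ (2 * D * M) ≤ c0 := by
            have : 0 ≤ nn M D * (Cu D * Cm M D * 2 ^ D) ^ 2 := by positivity
            linarith
          have heM : e1 ≤ e1 ^ (M + 1) := by
            have := pow_le_pow_right₀ he11 (show 1 ≤ M + 1 by omega)
            rwa [pow_one] at this
          have heM' : e1 ^ M ≤ e1 ^ (M + 1) := pow_le_pow_right₀ he11 (by omega)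
          refine ⟨?_, ?_⟩
          · have q1 : phi (S.dl 1 k) (A k ω) q ≤ e1 * K0 k :=
              g1.trans (mul_le_mul hexp g5 p1 (by positivity))
            have q2 : phi (S.dl 1 k) (A k ω) P ≤ c0 * (e1 * K0 k) :=
              g3.trans (mul_le_mul c1 q1 p2 (by positivity))
            have q3 : c0 * (e1 * K0 k) ≤ B k := by
              show c0 * (e1 * K0 k) ≤ c0 * e1 ^ (M + 1) * (K0 k + 1)
              rw [mul_assoc]
              apply mul_le_mul_of_nonneg_left _ (by positivity)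
              exact mul_le_mul heM (by linarith) a8 (by positivity)
            nlinarith
          · have q1 : GQ (S.dl 1 k) (A k ω) (y.v k ω') ≤ e1 ^ M * GQ (S.dl 1 k) (A k ω) q := by
              refine g2.trans ?_
              apply mul_le_mul_of_nonneg_right _ (by linarith)
              exact pow_le_pow_left₀ (Real.exp_pos _).le hexp M
            have q2 : GQ (S.dl 1 k) (A k ω) q ≤ c0 * GQ (S.dl 1 k) (A k ω) P :=
              g4.trans (mul_le_mul_of_nonneg_right c2 (by linarith))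
            have q3 : GQ (S.dl 1 k) (A k ω) (y.v k ω') ≤ B k * GQ (S.dl 1 k) (A k ω) P := by
              have r1 := q1.trans (mul_le_mul_of_nonneg_left q2 (by positivity))
              refine r1.trans ?_
              rw [← mul_assoc]
              apply mul_le_mul_of_nonneg_right _ (by linarith)
              show e1 ^ M * c0 ≤ c0 * e1 ^ (M + 1) * (K0 k + 1)
              have r2 : c0 * e1 ^ M * 1 ≤ c0 * e1 ^ (M + 1) * (K0 k + 1) :=
                mul_le_mul (mul_le_mul_of_nonneg_left heM' (by positivity)) (by linarith) zero_le_one (by positivity)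
              linarith
            have hGy := one_le_GQ (S.dl 1 k) hAω.1 hAω.psd.2 (y.v k ω')
            have q4 : (2 ^ ((j1 k ω : ℝ) * ε * (S.F k).n)) ^ 2 ≤ GQ (S.dl 1 k) (A k ω) (y.v k ω') := by
              have r1 := (hjj ω' h1).1
              rw [h5.1] at r1
              have r2 : gexq y A k ω' = Real.logb 2 (GQ (S.dl 1 k) (A k ω) (y.v k ω')) / (2 * (S.F k).n) := by
                unfold gexq
                rw [h6]
              rw [r2, le_div_iff₀ (by positivity)] at r1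
              rw [← Real.rpow_natCast, ← Real.rpow_mul (by norm_num),
                ← Real.le_logb_iff_rpow_le (by norm_num) (by linarith)]
              push_cast
              linarith
            rw [hg, div_pow, div_le_iff₀ (by positivity)]
            refine q4.trans (q3.trans ?_)
            have r1 : B k ≤ B k ^ 2 := by nlinarith
            rw [mul_comm (GQ (S.dl 1 k) (A k ω) P)]
            exact mul_le_mul_of_nonneg_right r1 (by linarith))
      -- conclusion
      have hBk0 : 0 < B k := by linarith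
      have hden : 0 < S.dl 1 k ^ M * (w / S.dl 1 k) := by positivity
      rw [← le_div_iff₀ hden] at hbox
      refine hbox.trans (le_of_eq_of_le (b := avC M D * B k ^ (M + 1) * 2 *
        2 ^ ((M - 1 - (j1 k ω : ℝ) * ε + m) * (S.F k).n)) ?_ ?_)
      · have x1 : S.dl 1 k ^ M = 2 ^ (-(M * (S.F k).n)) := by
          rw [dl_rpow, ← Real.rpow_natCast, ← Real.rpow_mul (by norm_num)]
          congr 1
          ring
        have x2 : (2 : ℝ) ^ ((M - 1 - (j1 k ω : ℝ) * ε + m) * (S.F k).n) =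
            2 ^ (M * (S.F k).n) * 2 ^ (-(1 * (S.F k).n)) * 2 ^ (-((j1 k ω : ℝ) * ε * (S.F k).n)) *
              2 ^ (m * (S.F k).n) := by
          rw [← Real.rpow_add (by norm_num), ← Real.rpow_add (by norm_num), ← Real.rpow_add (by norm_num)]
          congr 1
          ring
        rw [x1, x2, hw, hg, dl_rpow, Real.rpow_neg (by norm_num) (M * (S.F k).n), Real.rpow_neg (by norm_num) (1 * (S.F k).n),
          Real.rpow_neg (by norm_num) ((j1 k ω : ℝ) * ε * (S.F k).n), Real.rpow_neg (by norm_num) (m * (S.F k).n),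
          pow_succ]
        have y1 : (0 : ℝ) < 2 ^ (M * (S.F k).n) := by positivity
        have y2 : (0 : ℝ) < 2 ^ (1 * (S.F k).n) := by positivity
        have y3 : (0 : ℝ) < 2 ^ ((j1 k ω : ℝ) * ε * (S.F k).n) := by positivity
        have y4 : (0 : ℝ) < 2 ^ (m * (S.F k).n) := by positivity
        field_simp
      · apply mul_le_mul_of_nonneg_left _ (by positivity)
        apply Real.rpow_le_rpow_of_exponent_le (by norm_num)
        apply mul_le_mul_of_nonneg_right _ hn.le
        have z1 := (hjj ω hω).2.1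
        have z2 := (hjj ω hω).2.2.1
        have z3 : m ≤ max (τ k ω) b + ε := by
          rw [hm]
          apply max_le
          · have := le_max_left (τ k ω) b
            linarith
          · have := le_max_right (τ k ω) b
            linarith
        show M - 1 - (j1 k ω : ℝ) * ε + m ≤ M - 1 - gexq y A k ω + max (τ k ω) b + 2 * ε
        linarith) (2 * M) (cz_card y z b hb1)
  refine hmain.2.trans (le_of_eq ?_)
  have e2 : (fun k => ∑ ω, (S.F k).μ ω * ρ k ω) = fun k => (M - 1 + 2 * ε) -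
      (∑ ω, (S.F k).μ ω * gexq y A k ω) + ∑ ω, (S.F k).μ ω * max (τ k ω) b := by
    funext k
    have h1 : ∀ ω, (S.F k).μ ω * ρ k ω = (S.F k).μ ω * (M - 1 + 2 * ε) - (S.F k).μ ω * gexq y A k ω +
        (S.F k).μ ω * max (τ k ω) b := by
      intro ω
      rw [hρ]
      ring
    have h2 : ∑ ω, (S.F k).μ ω = 1 := (S.F k).ms
    rw [Finset.sum_congr rfl fun ω _ => h1 ω, Finset.sum_add_distrib, Finset.sum_sub_distrib, ← Finset.sum_mul, h2,
      one_mul]
  rw [e2, ul_add ((UB_const _).sub hgU) hmU, ul_sub (UB_const _) hgU]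
  have e3 : ul (fun _ : ℕ => (M - 1 + 2 * ε : ℝ)) = M - 1 + 2 * ε := ul_eq tendsto_const_nhds
  rw [e3, hεd]
  ring

end

end Pool.Agent.Helper4.VZ
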